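import Mathlib

/-!
Definitions used in the statement of the barrier theorem on Turán's (3,4)-problem.
A 3-graph on the vertex set `Fin n` is a `Finset (Finset (Fin n))` of 3-element sets.
-/

namespace Pool.Agent.H4

open Finset

/-- Every four vertices span at least one edge of `H` (`H` is a Turán (3,4)-graph). -/
def IsTuran34 {n : ℕ} (H : Finset (Finset (Fin n))) : Prop :=
  ∀ S : Finset (Fin n), S.card = 4 → ∃ e ∈ H, e ⊆ S

/-- `H` is the 3-graph that the Fon-der-Flaass construction gives for an orientation `A` of the
complete 3-partite graph with (possibly empty) parts `c = 0`, `c = 1`, `c = 2`: its edges are the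
triples inside one part and the triples in which one vertex has arcs to the other two. -/
def IsFDF3 {n : ℕ} (H : Finset (Finset (Fin n))) : Prop :=
  ∃ (c : Fin n → Fin 3) (A : Fin n → Fin n → Prop),
    (∀ x y, A x y → c x ≠ c y) ∧ (∀ x y, c x ≠ c y → (A x y ↔ ¬ A y x)) ∧
    ∀ e : Finset (Fin n), e ∈ H ↔
      e.card = 3 ∧ ((∀ x ∈ e, ∀ y ∈ e, c x = c y) ∨ ∃ x ∈ e, ∀ y ∈ e, y ≠ x → A x y)

/-- The number of edges of `H` that contain the vertex `v`. -/
def deg {n : ℕ} (H : Finset (Finset (Fin n))) (v : Fin n) : ℕ := (H.filter fun e => v ∈ e).card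

/-- `H` is degree-regular up to `η`: for every vertex `v`, the proportion of the pairs of other
vertices that form an edge together with `v` differs from the edge density of `H` by at most `η`. -/
def RegularUpTo {n : ℕ} (H : Finset (Finset (Fin n))) (η : ℝ) : Prop :=
  ∀ v : Fin n, |(deg H v : ℝ) / ((n - 1).choose 2 : ℝ) - (H.card : ℝ) / (n.choose 3 : ℝ)| ≤ η

/-- The labelled 3-graph induced by `H` on `Fin N` along the injection `f`. -/
def induced {N n : ℕ} (H : Finset (Finset (Fin n))) (f : Fin N ↪ Fin n) :
    Finset (Finset (Fin N)) :=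
  univ.filter fun e : Finset (Fin N) => e.map f ∈ H

/-- The average of `w` over all labelled induced sub-3-graphs of `H` on `N` vertices (that is,
over all injections `Fin N ↪ Fin n`). -/
noncomputable def avg {N n : ℕ} (w : Finset (Finset (Fin N)) → ℝ) (H : Finset (Finset (Fin n))) : ℝ :=
  (∑ f : Fin N ↪ Fin n, w (induced H f)) / (Fintype.card (Fin N ↪ Fin n) : ℝ)

/-- `w` is asymptotically nonnegative on the class `IsFDF3`, up to an error that is a constant `L`
times the irregularity of the degrees: for every `ε > 0`, every sufficiently large `H` in the class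
and every `η` such that `H` is degree-regular up to `η`, the average of `w` over the induced
labelled sub-3-graphs of `H` on `N` vertices is at least `-ε - L η`. Every sum of squares of flags,
and every degree multiplier `(deg v - average) f v`, has this property. -/
def AsympNonneg {N : ℕ} (w : Finset (Finset (Fin N)) → ℝ) : Prop :=
  ∃ L : ℝ, ∀ ε : ℝ, 0 < ε → ∃ n₀ : ℕ, ∀ n : ℕ, n₀ ≤ n → ∀ H : Finset (Finset (Fin n)),
    IsFDF3 H → ∀ η : ℝ, RegularUpTo H η → -ε - L * η ≤ avg w H

end Pool.Agent.H4
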