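import Mathlib

/-!
Averaging over injections `Fin N ↪ Fin n`: the image of a fixed `s`-subset is uniformly distributed.
-/

namespace Pool.Agent.H4

open Finset

variable {N n : ℕ}

/-- number of injections sending `S` onto `A`. -/
theorem card_inj_map_eq (S : Finset (Fin N)) (A B : Finset (Fin n)) (h : A.card = B.card) :
    (univ.filter fun f : Fin N ↪ Fin n => S.map f = A).card =
      (univ.filter fun f : Fin N ↪ Fin n => S.map f = B).card := by
  classical
  -- a permutation of `Fin n` taking `A` to `B`
  obtain ⟨σ, hσ⟩ : ∃ σ : Equiv.Perm (Fin n), A.map σ.toEmbedding = B := by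
    have hcard : Fintype.card {x // x ∈ A} = Fintype.card {x // x ∈ B} := by
      simpa using h
    let e : {x // x ∈ A} ≃ {x // x ∈ B} := Fintype.equivOfCardEq hcard
    refine ⟨e.extendSubtype, ?_⟩
    apply Finset.eq_of_subset_of_card_le
    · intro y hy
      rw [Finset.mem_map] at hy
      obtain ⟨x, hx, rfl⟩ := hy
      simpa using e.extendSubtype_mem x hx
    · simp [h]
  refine Finset.card_bij (fun f _ => f.trans σ.toEmbedding) ?_ ?_ ?_
  · intro f hf
    simp only [mem_filter, mem_univ, true_and] at hf ⊢
    rw [← Finset.map_map, hf, hσ]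
  · intro f _ g _ hfg
    ext x
    have := DFunLike.congr_fun hfg x
    simp only [Function.Embedding.trans_apply, Equiv.coe_toEmbedding, EmbeddingLike.apply_eq_iff_eq] at this
    exact congrArg _ this
  · intro g hg
    simp only [mem_filter, mem_univ, true_and] at hg
    refine ⟨g.trans σ.symm.toEmbedding, ?_, ?_⟩
    · simp only [mem_filter, mem_univ, true_and]
      rw [← Finset.map_map, hg, ← hσ, Finset.map_map]
      ext x
      simp
    · ext x
      simp

/-- the image of an `s`-set under a uniformly random injection is a uniformly random `s`-set. -/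
theorem card_inj_map_mem (S : Finset (Fin N)) (𝒜 : Finset (Finset (Fin n)))
    (h𝒜 : ∀ A ∈ 𝒜, A.card = S.card) :
    (univ.filter fun f : Fin N ↪ Fin n => S.map f ∈ 𝒜).card * n.choose S.card =
      𝒜.card * Fintype.card (Fin N ↪ Fin n) := by
  classical
  -- partition all injections according to `S.map f`
  have hall : Fintype.card (Fin N ↪ Fin n) =
      ∑ A ∈ powersetCard S.card (univ : Finset (Fin n)),
        (univ.filter fun f : Fin N ↪ Fin n => S.map f = A).card := by
    rw [← Finset.card_univ]
    apply Finset.card_eq_sum_card_fiberwise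
    intro f _
    simp [mem_powersetCard]
  have h𝒜' : (univ.filter fun f : Fin N ↪ Fin n => S.map f ∈ 𝒜).card =
      ∑ A ∈ 𝒜, (univ.filter fun f : Fin N ↪ Fin n => S.map f = A).card := by
    rw [Finset.card_eq_sum_card_fiberwise (f := fun f : Fin N ↪ Fin n => S.map f) (t := 𝒜)]
    · apply Finset.sum_congr rfl
      intro A hA
      congr 1
      ext f
      simp only [mem_filter, mem_univ, true_and]
      constructor
      · rintro ⟨_, h⟩; exact h
      · intro h; exact ⟨h ▸ hA, h⟩
    · intro f hf
      simpa using hf
  rcases 𝒜.eq_empty_or_nonempty with h0 | ⟨A₀, hA₀⟩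
  · subst h0; simp
  have key : ∀ A : Finset (Fin n), A.card = S.card →
      (univ.filter fun f : Fin N ↪ Fin n => S.map f = A).card =
      (univ.filter fun f : Fin N ↪ Fin n => S.map f = A₀).card := by
    intro A hA
    apply card_inj_map_eq
    rw [hA, h𝒜 A₀ hA₀]
  rw [hall, h𝒜', Finset.sum_congr rfl (fun A hA => key A (h𝒜 A hA)),
    Finset.sum_congr rfl (fun A hA => key A (by simpa [mem_powersetCard] using hA))]
  simp only [sum_const, card_powersetCard, card_univ, Fintype.card_fin, smul_eq_mul]
  ring

end Pool.Agent.H4
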