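import Mathlib
import Pool.Agent.H4.Inj
import Pool.Agent.H4.BSpec

/-!
The reduction of the barrier theorem on Turán's (3,4)-problem to a family of 3-graphs with few
independent 4-sets.
-/

namespace Pool.Agent.H4

open Finset

/-- all edges have three elements -/
def Is3Graph {n : ℕ} (H : Finset (Finset (Fin n))) : Prop := ∀ e ∈ H, e.card = 3

theorem IsFDF3.is3Graph {n : ℕ} {H : Finset (Finset (Fin n))} (h : IsFDF3 H) : Is3Graph H := by
  obtain ⟨c, A, _, _, h3⟩ := h
  intro e he
  exact ((h3 e).mp he).1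

variable {N n : ℕ}

/-- number of independent 4-sets -/
def indep4 (H : Finset (Finset (Fin n))) : Finset (Finset (Fin n)) :=
  (powersetCard 4 univ).filter fun S => ∀ e ∈ H, ¬ e ⊆ S

theorem induced_is3Graph {H : Finset (Finset (Fin n))} (h : Is3Graph H) (f : Fin N ↪ Fin n) :
    Is3Graph (induced H f) := by
  intro e he
  have := h _ (mem_filter.mp he).2
  simpa using this

theorem induced_isFDF3 {H : Finset (Finset (Fin n))} (h : IsFDF3 H) (f : Fin N ↪ Fin n) :
    IsFDF3 (induced H f) := by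
  obtain ⟨c, A, h1, h2, h3⟩ := h
  refine ⟨fun x => c (f x), fun x y => A (f x) (f y), fun x y => h1 _ _, fun x y => h2 _ _, ?_⟩
  intro e
  simp only [induced, mem_filter, mem_univ, true_and]
  rw [h3]
  simp only [card_map]
  constructor
  · rintro ⟨he, h | ⟨x, hx, h⟩⟩
    · refine ⟨he, Or.inl ?_⟩
      intro x hx y hy
      exact h _ (mem_map_of_mem f hx) _ (mem_map_of_mem f hy)
    · refine ⟨he, Or.inr ?_⟩
      obtain ⟨x', hx', rfl⟩ := Finset.mem_map.mp hx
      refine ⟨x', hx', ?_⟩
      intro y hy hne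
      exact h _ (mem_map_of_mem f hy) (fun hh => hne (f.injective hh))
  · rintro ⟨he, h | ⟨x, hx, h⟩⟩
    · refine ⟨he, Or.inl ?_⟩
      intro x hx y hy
      obtain ⟨x', hx', rfl⟩ := Finset.mem_map.mp hx
      obtain ⟨y', hy', rfl⟩ := Finset.mem_map.mp hy
      exact h _ hx' _ hy'
    · refine ⟨he, Or.inr ⟨f x, mem_map_of_mem f hx, ?_⟩⟩
      intro y hy hne
      obtain ⟨y', hy', rfl⟩ := Finset.mem_map.mp hy
      exact h _ hy' (fun hh => hne (by rw [hh]))

/-- total number of edges in all induced labelled copies -/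
theorem sum_card_induced {H : Finset (Finset (Fin n))} (h : Is3Graph H) :
    (∑ f : Fin N ↪ Fin n, (induced H f).card) * n.choose 3 =
      N.choose 3 * H.card * Fintype.card (Fin N ↪ Fin n) := by
  classical
  have h1 : ∀ f : Fin N ↪ Fin n, (induced H f).card =
      ∑ e ∈ powersetCard 3 (univ : Finset (Fin N)), if e.map f ∈ H then 1 else 0 := by
    intro f
    rw [← Finset.card_filter]
    congr 1
    ext e
    simp only [induced, mem_filter, mem_univ, true_and, mem_powersetCard, subset_univ]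
    constructor
    · intro he
      exact ⟨by simpa using h _ he, he⟩
    · intro he; exact he.2
  rw [Finset.sum_congr rfl (fun f _ => h1 f), Finset.sum_comm, Finset.sum_mul]
  have h2 : ∀ e ∈ powersetCard 3 (univ : Finset (Fin N)),
      (∑ f : Fin N ↪ Fin n, if e.map f ∈ H then 1 else 0) * n.choose 3 =
        H.card * Fintype.card (Fin N ↪ Fin n) := by
    intro e he
    have he3 : e.card = 3 := (mem_powersetCard.mp he).2
    rw [← Finset.card_filter]
    have := card_inj_map_mem (n := n) e H (fun A hA => by rw [h A hA, he3])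
    rwa [he3] at this
  rw [Finset.sum_congr rfl h2]
  simp [card_powersetCard]
  ring

open scoped Classical in
/-- number of labelled induced copies that are not Turán (3,4)-graphs -/
theorem card_not_turan_le (H : Finset (Finset (Fin n))) :
    (univ.filter fun f : Fin N ↪ Fin n => ¬ IsTuran34 (induced H f)).card * n.choose 4 ≤
      N.choose 4 * (indep4 H).card * Fintype.card (Fin N ↪ Fin n) := by
  classical
  have hsub : (univ.filter fun f : Fin N ↪ Fin n => ¬ IsTuran34 (induced H f)) ⊆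
      (powersetCard 4 (univ : Finset (Fin N))).biUnion fun S =>
        univ.filter fun f : Fin N ↪ Fin n => S.map f ∈ indep4 H := by
    intro f hf
    simp only [mem_filter, mem_univ, true_and, IsTuran34, not_forall] at hf
    obtain ⟨S, hS, hS'⟩ := hf
    simp only [mem_biUnion, mem_powersetCard, subset_univ, true_and, mem_filter, mem_univ]
    refine ⟨S, hS, ?_⟩
    simp only [indep4, mem_filter, mem_powersetCard, subset_univ, true_and, card_map, hS]
    intro e he heS
    apply hS'
    -- e = (preimage).map f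
    obtain ⟨u, hu, rfl⟩ := Finset.subset_map_iff.mp heS
    exact ⟨u, by simp [induced, he], hu⟩
  calc (univ.filter fun f : Fin N ↪ Fin n => ¬ IsTuran34 (induced H f)).card * n.choose 4
      ≤ (∑ S ∈ powersetCard 4 (univ : Finset (Fin N)),
          (univ.filter fun f : Fin N ↪ Fin n => S.map f ∈ indep4 H).card) * n.choose 4 := by
        apply Nat.mul_le_mul_right
        exact (card_le_card hsub).trans card_biUnion_le
    _ = ∑ S ∈ powersetCard 4 (univ : Finset (Fin N)),
          (univ.filter fun f : Fin N ↪ Fin n => S.map f ∈ indep4 H).card * n.choose 4 := by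
        rw [Finset.sum_mul]
    _ = ∑ S ∈ powersetCard 4 (univ : Finset (Fin N)),
          (indep4 H).card * Fintype.card (Fin N ↪ Fin n) := by
        apply Finset.sum_congr rfl
        intro S hS
        have hS4 : S.card = 4 := (mem_powersetCard.mp hS).2
        have := card_inj_map_mem (n := n) S (indep4 H) (fun A hA => by
          rw [hS4]; exact (mem_powersetCard.mp (mem_filter.mp hA).1).2)
        rwa [hS4] at this
    _ = N.choose 4 * (indep4 H).card * Fintype.card (Fin N ↪ Fin n) := by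
        simp [card_powersetCard]; ring

/-- **Reduction.** -/
theorem barrier_of_family
    (hfam : ∀ K : ℝ, ∃ δ : ℝ, 0 < δ ∧ ∀ n₀ : ℕ, ∃ n : ℕ, n₀ ≤ n ∧ ∃ H : Finset (Finset (Fin n)),
      IsFDF3 H ∧ (H.card : ℝ) ≤ (4 / 9 - δ) * (n.choose 3 : ℝ) ∧
        K * ((indep4 H).card : ℝ) ≤ δ * (n.choose 4 : ℝ) ∧ ∃ η : ℝ, RegularUpTo H η ∧ K * η ≤ δ)
    (N : ℕ) (w : Finset (Finset (Fin N)) → ℝ) (hw : AsympNonneg w) :
    ¬ ∀ F : Finset (Finset (Fin N)), IsFDF3 F → IsTuran34 F →
        4 / 9 + w F ≤ (F.card : ℝ) / (N.choose 3 : ℝ) := by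
  classical
  intro hcert
  obtain ⟨L, hw⟩ := hw
  -- constant bounding the failure
  set C : ℝ := ∑ F : Finset (Finset (Fin N)), |4 / 9 + w F - (F.card : ℝ) / (N.choose 3 : ℝ)| with hC
  have hC0 : 0 ≤ C := Finset.sum_nonneg fun _ _ => abs_nonneg _
  have hCF : ∀ F : Finset (Finset (Fin N)), 4 / 9 + w F - C ≤ (F.card : ℝ) / (N.choose 3 : ℝ) := by
    intro F
    have h1 : |4 / 9 + w F - (F.card : ℝ) / (N.choose 3 : ℝ)| ≤ C :=
      Finset.single_le_sum (f := fun F : Finset (Finset (Fin N)) =>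
        |4 / 9 + w F - (F.card : ℝ) / (N.choose 3 : ℝ)|) (fun _ _ => abs_nonneg _) (mem_univ F)
    have h2 := le_abs_self (4 / 9 + w F - (F.card : ℝ) / (N.choose 3 : ℝ))
    linarith
  have hL0 : 0 ≤ |L| := abs_nonneg L
  have hN40 : (0 : ℝ) ≤ (N.choose 4 : ℝ) := Nat.cast_nonneg _
  obtain ⟨δ, hδ, hfam'⟩ := hfam (4 * C * (N.choose 4 : ℝ) + 4 * |L|)
  obtain ⟨n₀, hn₀⟩ := hw (δ / 4) (by linarith)
  obtain ⟨n, hn, H, hHF, hHcard, hHind, η, hreg, hη⟩ := hfam' (max n₀ (max N 4))
  have hH3 : Is3Graph H := hHF.is3Graph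
  have hnN : N ≤ n := le_trans (le_max_left _ _) (le_trans (le_max_right _ _) hn)
  have hn4 : 4 ≤ n := le_trans (le_max_right _ _) (le_trans (le_max_right _ _) hn)
  have havg := hn₀ n (le_trans (le_max_left _ _) hn) H hHF η hreg
  have hη0 : 0 ≤ η := (abs_nonneg _).trans (hreg ⟨0, by omega⟩)
  have hCN : 0 ≤ C * (N.choose 4 : ℝ) := mul_nonneg hC0 hN40
  have hLη : |L| * η ≤ δ / 4 := by
    have h1 : 0 ≤ C * (N.choose 4 : ℝ) * η := mul_nonneg hCN hη0
    nlinarith
  have hLη' : L * η ≤ δ / 4 :=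
    (mul_le_mul_of_nonneg_right (le_abs_self L) hη0).trans hLη
  have havg2 : -(δ / 2) ≤ avg w H := by linarith
  -- number of injections is positive
  have hInj : 0 < Fintype.card (Fin N ↪ Fin n) := by
    rw [Fintype.card_pos_iff]
    exact ⟨Fin.castLEEmb hnN⟩
  have hInjR : (0 : ℝ) < (Fintype.card (Fin N ↪ Fin n) : ℝ) := by exact_mod_cast hInj
  have hn3R : (0 : ℝ) < (n.choose 3 : ℝ) := by
    exact_mod_cast Nat.choose_pos (by omega)
  have hn4R : (0 : ℝ) < (n.choose 4 : ℝ) := by
    exact_mod_cast Nat.choose_pos (by omega)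
  have hδ1 : δ ≤ 4 / 9 := by
    by_contra hcon
    push Not at hcon
    have h1 : (4 / 9 - δ) * (n.choose 3 : ℝ) < 0 := mul_neg_of_neg_of_pos (by linarith) hn3R
    have h2 : (0 : ℝ) ≤ (H.card : ℝ) := Nat.cast_nonneg _
    linarith
  have havg' : -(δ / 2) * (Fintype.card (Fin N ↪ Fin n) : ℝ) ≤ ∑ f : Fin N ↪ Fin n, w (induced H f) := by
    have := havg2
    unfold avg at this
    rwa [le_div_iff₀ hInjR] at this
  -- the right-hand side
  by_cases hN3 : N < 3
  · -- all densities are 0
    have hz : N.choose 3 = 0 := Nat.choose_eq_zero_of_lt hN3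
    have hempF : ∀ e : Finset (Fin N), e.card ≠ 3 := by
      intro e he
      have : e.card ≤ N := by simpa using card_le_univ e
      omega
    have hemp : 4 / 9 + w ∅ ≤ 0 := by
      have := hcert ∅ (by
        refine ⟨fun _ => 0, fun _ _ => False, fun _ _ h => h.elim, fun _ _ h => (h rfl).elim, ?_⟩
        intro e
        constructor
        · intro he; simp at he
        · rintro ⟨he, _⟩; exact (hempF e he).elim) (by
        intro S hS
        have : S.card ≤ N := by simpa using card_le_univ S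
        omega)
      simpa [hz] using this
    have hall : ∀ f : Fin N ↪ Fin n, induced H f = (∅ : Finset (Finset (Fin N))) := by
      intro f
      apply Finset.eq_empty_of_forall_notMem
      intro e he
      exact hempF e (induced_is3Graph hH3 f e he)
    rw [Finset.sum_congr rfl (fun f _ => by rw [hall f])] at havg'
    rw [Finset.sum_const, card_univ, nsmul_eq_mul] at havg'
    nlinarith
  -- pointwise inequality summed
  have hsum : ∑ f : Fin N ↪ Fin n, (4 / 9 + w (induced H f) -
      (if IsTuran34 (induced H f) then 0 else C)) ≤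
      ∑ f : Fin N ↪ Fin n, ((induced H f).card : ℝ) / (N.choose 3 : ℝ) := by
    apply Finset.sum_le_sum
    intro f _
    by_cases hf : IsTuran34 (induced H f)
    · simp only [hf, if_true, sub_zero]
      exact hcert _ (induced_isFDF3 hHF f) hf
    · simp only [hf, if_false]
      exact hCF _
  rw [Finset.sum_sub_distrib, Finset.sum_add_distrib] at hsum
  have hconst : ∑ _f : Fin N ↪ Fin n, (4 / 9 : ℝ) = 4 / 9 * (Fintype.card (Fin N ↪ Fin n) : ℝ) := by
    simp; ring
  have hind : ∑ f : Fin N ↪ Fin n, (if IsTuran34 (induced H f) then (0 : ℝ) else C) =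
      C * ((univ.filter fun f : Fin N ↪ Fin n => ¬ IsTuran34 (induced H f)).card : ℝ) := by
    have : ∀ f : Fin N ↪ Fin n, (if IsTuran34 (induced H f) then (0 : ℝ) else C) =
        (if ¬ IsTuran34 (induced H f) then C else 0) := by
      intro f; by_cases h : IsTuran34 (induced H f) <;> simp [h]
    rw [Finset.sum_congr rfl (fun f _ => this f), ← Finset.sum_filter, Finset.sum_const, nsmul_eq_mul]
    ring
  have hbad : ((univ.filter fun f : Fin N ↪ Fin n => ¬ IsTuran34 (induced H f)).card : ℝ) *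
      (n.choose 4 : ℝ) ≤ (N.choose 4 : ℝ) * ((indep4 H).card : ℝ) *
        (Fintype.card (Fin N ↪ Fin n) : ℝ) := by
    exact_mod_cast card_not_turan_le (N := N) H
  have hind0 : (0 : ℝ) ≤ ((indep4 H).card : ℝ) := Nat.cast_nonneg _
  have hHind2 : C * (N.choose 4 : ℝ) * ((indep4 H).card : ℝ) ≤ δ / 4 * (n.choose 4 : ℝ) := by
    have : 0 ≤ |L| * ((indep4 H).card : ℝ) := mul_nonneg hL0 hind0
    nlinarith
  -- C * bad ≤ δ/4 * Inj
  have hbad2 : C * ((univ.filter fun f : Fin N ↪ Fin n => ¬ IsTuran34 (induced H f)).card : ℝ) ≤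
      δ / 4 * (Fintype.card (Fin N ↪ Fin n) : ℝ) := by
    have h1 : C * ((univ.filter fun f : Fin N ↪ Fin n => ¬ IsTuran34 (induced H f)).card : ℝ) *
        (n.choose 4 : ℝ) ≤ δ / 4 * (Fintype.card (Fin N ↪ Fin n) : ℝ) * (n.choose 4 : ℝ) := by
      calc C * ((univ.filter fun f : Fin N ↪ Fin n => ¬ IsTuran34 (induced H f)).card : ℝ) *
          (n.choose 4 : ℝ)
          = C * (((univ.filter fun f : Fin N ↪ Fin n => ¬ IsTuran34 (induced H f)).card : ℝ) *
          (n.choose 4 : ℝ)) := by ring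
        _ ≤ C * ((N.choose 4 : ℝ) * ((indep4 H).card : ℝ) *
            (Fintype.card (Fin N ↪ Fin n) : ℝ)) := mul_le_mul_of_nonneg_left hbad hC0
        _ = (C * (N.choose 4 : ℝ) * ((indep4 H).card : ℝ)) *
            (Fintype.card (Fin N ↪ Fin n) : ℝ) := by ring
        _ ≤ (δ / 4 * (n.choose 4 : ℝ)) * (Fintype.card (Fin N ↪ Fin n) : ℝ) :=
            mul_le_mul_of_nonneg_right hHind2 hInjR.le
        _ = δ / 4 * (Fintype.card (Fin N ↪ Fin n) : ℝ) * (n.choose 4 : ℝ) := by ring
    exact le_of_mul_le_mul_right h1 hn4R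
  have hN3' : 3 ≤ N := by omega
  have hNR : (0 : ℝ) < (N.choose 3 : ℝ) := by exact_mod_cast Nat.choose_pos hN3'
  have hedge : ∑ f : Fin N ↪ Fin n, ((induced H f).card : ℝ) / (N.choose 3 : ℝ) =
      (H.card : ℝ) / (n.choose 3 : ℝ) * (Fintype.card (Fin N ↪ Fin n) : ℝ) := by
    have h1 : ((∑ f : Fin N ↪ Fin n, (induced H f).card : ℕ) : ℝ) * (n.choose 3 : ℝ) =
        (N.choose 3 : ℝ) * (H.card : ℝ) * (Fintype.card (Fin N ↪ Fin n) : ℝ) := by
      exact_mod_cast sum_card_induced (N := N) hH3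
    rw [← Finset.sum_div]
    push_cast at h1
    field_simp
    linarith
  rw [hconst, hind, hedge] at hsum
  have hH' : (H.card : ℝ) / (n.choose 3 : ℝ) ≤ 4 / 9 - δ := by
    rw [div_le_iff₀ hn3R]; exact hHcard
  have h2 : (H.card : ℝ) / (n.choose 3 : ℝ) * (Fintype.card (Fin N ↪ Fin n) : ℝ) ≤
      (4 / 9 - δ) * (Fintype.card (Fin N ↪ Fin n) : ℝ) :=
    mul_le_mul_of_nonneg_right hH' hInjR.le
  have h3 : 0 < δ * (Fintype.card (Fin N ↪ Fin n) : ℝ) := mul_pos hδ hInjR
  nlinarith

end Pool.Agent.H4
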