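import Mathlib
import Pool.Agent.H4.BDefs

/-!
The family of 3-graphs (from unbalanced 3-partite orientations) with edge density below `4/9` and
very few independent 4-sets.
-/

namespace Pool.Agent.H4

open Finset

/-- vertex types of the construction -/
inductive Ty (l k : ℕ) : Type
  | V0 : Ty l k
  | V1 (j : Fin l) : Ty l k
  | V2 (i : Fin k) : Ty l k
  | S1 (i : Fin k) : Ty l k
  | S2 (j : Fin l) : Ty l k
  deriving DecidableEq

namespace Ty

variable {l k : ℕ}

/-- auxiliary equivalence -/
def equiv (l k : ℕ) : Ty l k ≃ (Unit ⊕ (Fin l ⊕ (Fin k ⊕ (Fin k ⊕ Fin l)))) where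
  toFun
    | V0 => .inl ()
    | V1 j => .inr (.inl j)
    | V2 i => .inr (.inr (.inl i))
    | S1 i => .inr (.inr (.inr (.inl i)))
    | S2 j => .inr (.inr (.inr (.inr j)))
  invFun
    | .inl _ => V0
    | .inr (.inl j) => V1 j
    | .inr (.inr (.inl i)) => V2 i
    | .inr (.inr (.inr (.inl i))) => S1 i
    | .inr (.inr (.inr (.inr j))) => S2 j
  left_inv t := by cases t <;> rfl
  right_inv t := by rcases t with _ | _ | _ | _ | _ <;> rfl

instance : Fintype (Ty l k) := Fintype.ofEquiv _ (equiv l k).symm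

theorem sum_ty (f : Ty l k → ℕ) : ∑ t, f t = f V0 + ∑ j, f (V1 j) + ∑ i, f (V2 i) + ∑ i, f (S1 i) +
    ∑ j, f (S2 j) := by
  rw [← Equiv.sum_comp (equiv l k).symm f]
  simp only [Fintype.sum_sum_type, Finset.univ_unique, Finset.sum_singleton]
  simp only [equiv, Equiv.coe_fn_symm_mk]
  ring

/-- the class of a type -/
def cls : Ty l k → Fin 3
  | V0 => 0
  | V1 _ => 1
  | S1 _ => 1
  | V2 _ => 2
  | S2 _ => 2

/-- arcs between types -/
def arc : Ty l k → Ty l k → Prop
  | V0, V1 _ => True
  | V1 _, V2 _ => True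
  | V2 _, V0 => True
  | S1 _, V0 => True
  | V0, S2 _ => True
  | S2 _, S1 _ => True
  | V2 i, S1 j => i ≠ j
  | S1 i, V2 j => i = j
  | S2 i, V1 j => i ≠ j
  | V1 i, S2 j => i = j
  | _, _ => False

instance : DecidableRel (arc (l := l) (k := k)) := by
  intro a b
  cases a <;> cases b <;> simp only [arc] <;> infer_instance

/-- exceptional arcs -/
def exc : Ty l k → Ty l k → Prop
  | S1 i, V2 j => i = j
  | V1 i, S2 j => i = j
  | _, _ => False

instance : DecidableRel (exc (l := l) (k := k)) := by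
  intro a b
  cases a <;> cases b <;> simp only [exc] <;> infer_instance

theorem arc_total (a b : Ty l k) (h : cls a ≠ cls b) : arc a b ∨ arc b a := by
  cases a <;> cases b <;> simp_all [arc, cls, eq_comm] <;> tauto

theorem arc_cls (a b : Ty l k) (h : arc a b) : cls a ≠ cls b := by
  cases a <;> cases b <;> simp_all [arc, cls]

theorem arc_asymm (a b : Ty l k) (h : arc a b) : ¬ arc b a := by
  cases a <;> cases b <;> simp_all [arc, eq_comm]

/-- a directed 4-cycle consists of two exceptional arcs -/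
theorem cycle_exc (a b a' b' : Ty l k) (ha : cls a = cls a') (hb : cls b = cls b')
    (h1 : arc a b) (h2 : arc b a') (h3 : arc a' b') (h4 : arc b' a) :
    (exc a b ∧ exc a' b') ∨ (exc b a' ∧ exc b' a) := by
  cases a <;> cases b <;> simp [arc, cls] at * <;> cases a' <;> simp [arc, cls] at * <;>
    cases b' <;> simp_all [arc, cls, exc]

end Ty

/-- a map `Fin (∑ s) → T` with prescribed fibre sizes -/
theorem exists_typing {T : Type} [Fintype T] [DecidableEq T] (s : T → ℕ) (n : ℕ)
    (hn : n = ∑ t, s t) :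
    ∃ τ : Fin n → T, ∀ t, (univ.filter fun v => τ v = t).card = s t := by
  classical
  have hcard : Fintype.card (Fin n) = Fintype.card (Σ t : T, Fin (s t)) := by
    simp [hn]
  let e : Fin n ≃ (Σ t : T, Fin (s t)) := Fintype.equivOfCardEq hcard
  refine ⟨fun v => (e v).1, ?_⟩
  intro t
  have : (univ.filter fun v => (e v).1 = t).card =
      (univ.filter fun x : (Σ t : T, Fin (s t)) => x.1 = t).card := by
    refine Finset.card_bij (fun v _ => e v) ?_ ?_ ?_
    · intro v hv; simpa using hv
    · intro a _ b _ h; exact e.injective h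
    · intro x hx
      exact ⟨e.symm x, by simpa using hx, by simp⟩
  rw [this]
  have h2 : (univ.filter fun x : (Σ t : T, Fin (s t)) => x.1 = t) =
      (univ : Finset (Fin (s t))).map ⟨fun i => (⟨t, i⟩ : Σ t : T, Fin (s t)), by
        intro a b h; simpa using h⟩ := by
    ext ⟨t', i⟩
    simp only [mem_filter, mem_univ, true_and, mem_map, Function.Embedding.coeFn_mk]
    constructor
    · rintro rfl; exact ⟨i, rfl⟩
    · rintro ⟨j, hj⟩
      have := congrArg Sigma.fst hj
      exact this.symm
  rw [h2, card_map, card_univ, Fintype.card_fin]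

/-- counting vertices whose type satisfies `P` -/
theorem card_typing {T : Type} [Fintype T] [DecidableEq T] {s : T → ℕ} {n : ℕ} {τ : Fin n → T}
    (hτ : ∀ t, (univ.filter fun v => τ v = t).card = s t) (P : T → Prop) [DecidablePred P] :
    (univ.filter fun v => P (τ v)).card = ∑ t, if P t then s t else 0 := by
  classical
  rw [Finset.card_eq_sum_card_fiberwise (f := τ) (t := univ) (by intro v _; simp)]
  apply Finset.sum_congr rfl
  intro t _
  by_cases h : P t
  · rw [if_pos h, ← hτ t]
    congr 1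
    ext v
    simp only [mem_filter, mem_univ, true_and]
    constructor
    · rintro ⟨_, h2⟩; exact h2
    · intro h2; exact ⟨h2 ▸ h, h2⟩
  · rw [if_neg h, Finset.card_eq_zero]
    apply Finset.eq_empty_of_forall_notMem
    intro v hv
    simp only [mem_filter, mem_univ, true_and] at hv
    exact h (hv.2 ▸ hv.1)

section Graph

variable {l k n : ℕ} (τ : Fin n → Ty l k)

/-- the 3-graph: triples inside a class, and triples with a vertex dominating the other two -/
def graph : Finset (Finset (Fin n)) :=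
  (powersetCard 3 univ).filter fun e =>
    (∀ x ∈ e, ∀ y ∈ e, Ty.cls (τ x) = Ty.cls (τ y)) ∨
      ∃ x ∈ e, ∀ y ∈ e, y ≠ x → Ty.arc (τ x) (τ y)

theorem graph_is3Graph : Is3Graph (graph τ) := by
  intro e he
  exact (mem_powersetCard.mp (mem_filter.mp he).1).2

theorem graph_isFDF3 : IsFDF3 (graph τ) := by
  refine ⟨fun v => Ty.cls (τ v), fun x y => Ty.arc (τ x) (τ y), fun x y h => Ty.arc_cls _ _ h, ?_, ?_⟩
  · intro x y h
    constructor
    · intro h1; exact Ty.arc_asymm _ _ h1
    · intro h1; exact (Ty.arc_total _ _ h).resolve_right h1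
  · intro e
    simp only [graph, mem_filter, mem_powersetCard, subset_univ, true_and]

/-- vertices in class `i` -/
def cl (i : Fin 3) : Finset (Fin n) := univ.filter fun v => Ty.cls (τ v) = i

/-- out-neighbourhood -/
def out (v : Fin n) : Finset (Fin n) := univ.filter fun y => Ty.arc (τ v) (τ y)

theorem graph_card_le : (graph τ).card ≤
    ∑ i : Fin 3, (cl τ i).card.choose 3 + ∑ v : Fin n, (out τ v).card.choose 2 := by
  classical
  have hsub : graph τ ⊆ (univ.biUnion fun i : Fin 3 => powersetCard 3 (cl τ i)) ∪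
      (univ.biUnion fun v : Fin n => (powersetCard 2 (out τ v)).image (insert v)) := by
    intro e he
    simp only [graph, mem_filter, mem_powersetCard, subset_univ, true_and] at he
    obtain ⟨he3, h | ⟨x, hx, h⟩⟩ := he
    · apply mem_union_left
      obtain ⟨x, hx⟩ : e.Nonempty := by
        rw [← card_pos]; omega
      simp only [mem_biUnion, mem_univ, true_and, mem_powersetCard]
      refine ⟨Ty.cls (τ x), ?_, he3⟩
      intro y hy
      simp only [cl, mem_filter, mem_univ, true_and]
      exact h y hy x hx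
    · apply mem_union_right
      simp only [mem_biUnion, mem_univ, true_and, mem_image, mem_powersetCard]
      refine ⟨x, e.erase x, ⟨?_, ?_⟩, insert_erase hx⟩
      · intro y hy
        simp only [out, mem_filter, mem_univ, true_and]
        exact h y (mem_of_mem_erase hy) (ne_of_mem_erase hy)
      · rw [card_erase_of_mem hx, he3]
  calc (graph τ).card ≤ _ := card_le_card hsub
    _ ≤ _ := card_union_le _ _
    _ ≤ _ := by
      apply Nat.add_le_add
      · refine card_biUnion_le.trans ?_
        simp [card_powersetCard]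
      · refine card_biUnion_le.trans ?_
        apply Finset.sum_le_sum
        intro v _
        exact card_image_le.trans (by simp [card_powersetCard])

/-- in-neighbourhood -/
def inn (v : Fin n) : Finset (Fin n) := univ.filter fun u => Ty.arc (τ u) (τ v)

/-- exact degrees -/
theorem deg_graph (v : Fin n) : deg (graph τ) v =
    ((cl τ (Ty.cls (τ v))).card - 1).choose 2 + (out τ v).card.choose 2 +
      ∑ u ∈ inn τ v, ((out τ u).card - 1) := by
  classical
  set P1 : Finset (Finset (Fin n)) :=
    (powersetCard 2 ((cl τ (Ty.cls (τ v))).erase v)).image (insert v) with hP1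
  set P2 : Finset (Finset (Fin n)) := (powersetCard 2 (out τ v)).image (insert v) with hP2
  set P3 : Finset (Finset (Fin n)) :=
    ((inn τ v).sigma fun u => (out τ u).erase v).image fun p => {p.1, v, p.2} with hP3
  have hirr : ∀ x : Fin n, ¬ Ty.arc (τ x) (τ x) := fun x h => Ty.arc_asymm _ _ h h
  have m1 : ∀ e ∈ P1, v ∈ e ∧ e.card = 3 ∧ ∀ x ∈ e, Ty.cls (τ x) = Ty.cls (τ v) := by
    intro e he
    simp only [hP1, mem_image, mem_powersetCard] at he
    obtain ⟨s, ⟨hs, hs2⟩, rfl⟩ := he
    have hv : v ∉ s := fun h => (mem_erase.mp (hs h)).1 rfl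
    refine ⟨mem_insert_self _ _, by rw [card_insert_of_notMem hv, hs2], ?_⟩
    intro x hx
    rcases mem_insert.mp hx with rfl | hx
    · rfl
    · have := mem_of_mem_erase (hs hx)
      simpa [cl] using this
  have m2 : ∀ e ∈ P2, v ∈ e ∧ e.card = 3 ∧ ∀ x ∈ e, x ≠ v → Ty.arc (τ v) (τ x) := by
    intro e he
    simp only [hP2, mem_image, mem_powersetCard] at he
    obtain ⟨s, ⟨hs, hs2⟩, rfl⟩ := he
    have hv : v ∉ s := by
      intro h
      have := hs h
      simp only [out, mem_filter, mem_univ, true_and] at this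
      exact hirr v this
    refine ⟨mem_insert_self _ _, by rw [card_insert_of_notMem hv, hs2], ?_⟩
    intro x hx hxv
    have := hs ((mem_insert.mp hx).resolve_left hxv)
    simpa [out] using this
  have m3 : ∀ e ∈ P3, v ∈ e ∧ e.card = 3 ∧ ∃ u ∈ e, u ≠ v ∧ ∀ x ∈ e, x ≠ u → Ty.arc (τ u) (τ x) := by
    intro e he
    simp only [hP3, mem_image, mem_sigma, Sigma.exists] at he
    obtain ⟨u, y, ⟨hu, hy⟩, rfl⟩ := he
    have hu' : Ty.arc (τ u) (τ v) := by simpa [inn] using hu
    have hy' : Ty.arc (τ u) (τ y) := by simpa [out] using mem_of_mem_erase hy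
    have huv : u ≠ v := by rintro rfl; exact hirr _ hu'
    have huy : u ≠ y := by rintro rfl; exact hirr _ hy'
    have hvy : v ≠ y := (ne_of_mem_erase hy).symm
    refine ⟨by simp, by rw [card_eq_three]; exact ⟨u, v, y, huv, huy, hvy, rfl⟩, u, by simp, huv, ?_⟩
    intro x hx hxu
    simp only [mem_insert, mem_singleton] at hx
    rcases hx with rfl | rfl | rfl
    · exact absurd rfl hxu
    · exact hu'
    · exact hy'
  have hother : ∀ e : Finset (Fin n), e.card = 3 → v ∈ e → ∃ x ∈ e, x ≠ v := by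
    intro e he hv
    have : (e.erase v).Nonempty := by
      rw [← card_pos, card_erase_of_mem hv]; omega
    obtain ⟨x, hx⟩ := this
    exact ⟨x, mem_of_mem_erase hx, ne_of_mem_erase hx⟩
  have hsplit : (graph τ).filter (fun e => v ∈ e) = (P1 ∪ P2) ∪ P3 := by
    ext e
    constructor
    · intro he
      simp only [graph, mem_filter, mem_powersetCard, subset_univ, true_and] at he
      obtain ⟨⟨he3, h⟩, hv⟩ := he
      rcases h with h | ⟨x, hx, h⟩
      · apply mem_union_left; apply mem_union_left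
        simp only [hP1, mem_image, mem_powersetCard]
        refine ⟨e.erase v, ⟨?_, by rw [card_erase_of_mem hv, he3]⟩, insert_erase hv⟩
        intro y hy
        refine mem_erase.mpr ⟨ne_of_mem_erase hy, ?_⟩
        simp only [cl, mem_filter, mem_univ, true_and]
        exact h y (mem_of_mem_erase hy) v hv
      · by_cases hxv : x = v
        · subst hxv
          apply mem_union_left; apply mem_union_right
          simp only [hP2, mem_image, mem_powersetCard]
          refine ⟨e.erase x, ⟨?_, by rw [card_erase_of_mem hv, he3]⟩, insert_erase hv⟩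
          intro y hy
          simp only [out, mem_filter, mem_univ, true_and]
          exact h y (mem_of_mem_erase hy) (ne_of_mem_erase hy)
        · apply mem_union_right
          have hvx : v ∈ e.erase x := mem_erase.mpr ⟨fun hh => hxv hh.symm, hv⟩
          have hc1 : ((e.erase x).erase v).card = 1 := by
            rw [card_erase_of_mem hvx, card_erase_of_mem hx, he3]
          obtain ⟨y, hy⟩ := card_eq_one.mp hc1
          have hye : y ∈ (e.erase x).erase v := by rw [hy]; simp
          have hyv : y ≠ v := ne_of_mem_erase hye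
          have hyx : y ≠ x := ne_of_mem_erase (mem_of_mem_erase hye)
          have hyE : y ∈ e := mem_of_mem_erase (mem_of_mem_erase hye)
          simp only [hP3, mem_image, mem_sigma, Sigma.exists]
          refine ⟨x, y, ⟨?_, ?_⟩, ?_⟩
          · simp only [inn, mem_filter, mem_univ, true_and]
            exact h v hv (fun hh => hxv hh.symm)
          · refine mem_erase.mpr ⟨hyv, ?_⟩
            simp only [out, mem_filter, mem_univ, true_and]
            exact h y hyE hyx
          · rw [← insert_erase hx, ← insert_erase hvx, hy]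
    · intro he
      have : v ∈ e ∧ e.card = 3 ∧ ((∀ x ∈ e, ∀ y ∈ e, Ty.cls (τ x) = Ty.cls (τ y)) ∨
          ∃ x ∈ e, ∀ y ∈ e, y ≠ x → Ty.arc (τ x) (τ y)) := by
        rcases mem_union.mp he with he | he
        · rcases mem_union.mp he with he | he
          · obtain ⟨h1, h2, h3⟩ := m1 e he
            exact ⟨h1, h2, Or.inl fun x hx y hy => (h3 x hx).trans (h3 y hy).symm⟩
          · obtain ⟨h1, h2, h3⟩ := m2 e he
            exact ⟨h1, h2, Or.inr ⟨v, h1, h3⟩⟩
        · obtain ⟨h1, h2, u, hu, _, h3⟩ := m3 e he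
          exact ⟨h1, h2, Or.inr ⟨u, hu, h3⟩⟩
      simp only [graph, mem_filter, mem_powersetCard, subset_univ, true_and]
      exact ⟨⟨this.2.1, this.2.2⟩, this.1⟩
  have d12 : Disjoint P1 P2 := by
    rw [Finset.disjoint_left]
    intro e h1 h2
    obtain ⟨hv, h3, hm⟩ := m1 e h1
    obtain ⟨_, _, ha⟩ := m2 e h2
    obtain ⟨x, hx, hxv⟩ := hother e h3 hv
    exact Ty.arc_cls _ _ (ha x hx hxv) (hm x hx).symm
  have d123 : Disjoint (P1 ∪ P2) P3 := by
    rw [Finset.disjoint_left]
    intro e h12 h3
    obtain ⟨hv, hc, u, hu, huv, ha⟩ := m3 e h3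
    have huv' := ha v hv (fun hh => huv hh.symm)
    rcases mem_union.mp h12 with h | h
    · obtain ⟨_, _, hm⟩ := m1 e h
      exact Ty.arc_cls _ _ huv' (hm u hu)
    · obtain ⟨_, _, hm⟩ := m2 e h
      exact Ty.arc_asymm _ _ huv' (hm u hu huv)
  have c1 : P1.card = ((cl τ (Ty.cls (τ v))).card - 1).choose 2 := by
    rw [hP1, card_image_of_injOn, card_powersetCard, card_erase_of_mem]
    · simp [cl]
    · intro s hs t ht hst
      have hvs : v ∉ s := fun h => (mem_erase.mp ((mem_powersetCard.mp hs).1 h)).1 rfl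
      have hvt : v ∉ t := fun h => (mem_erase.mp ((mem_powersetCard.mp ht).1 h)).1 rfl
      have := congrArg (fun u => u.erase v) hst
      simpa [erase_insert hvs, erase_insert hvt] using this
  have c2 : P2.card = (out τ v).card.choose 2 := by
    have hvo : v ∉ out τ v := by
      simp only [out, mem_filter, mem_univ, true_and]; exact hirr v
    rw [hP2, card_image_of_injOn, card_powersetCard]
    intro s hs t ht hst
    have hvs : v ∉ s := fun h => hvo ((mem_powersetCard.mp hs).1 h)
    have hvt : v ∉ t := fun h => hvo ((mem_powersetCard.mp ht).1 h)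
    have := congrArg (fun u => u.erase v) hst
    simpa [erase_insert hvs, erase_insert hvt] using this
  have c3 : P3.card = ∑ u ∈ inn τ v, ((out τ u).card - 1) := by
    rw [hP3, card_image_of_injOn, card_sigma]
    · apply Finset.sum_congr rfl
      intro u hu
      rw [card_erase_of_mem]
      simpa [out, inn] using hu
    · rintro ⟨u, y⟩ hp ⟨u', y'⟩ hp' heq
      simp only [coe_sigma, Set.mem_sigma_iff, mem_coe] at hp hp'
      simp only at heq
      have hu : Ty.arc (τ u) (τ v) := by simpa [inn] using hp.1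
      have hu' : Ty.arc (τ u') (τ v) := by simpa [inn] using hp'.1
      have hy : Ty.arc (τ u) (τ y) := by simpa [out] using mem_of_mem_erase hp.2
      have hy' : Ty.arc (τ u') (τ y') := by simpa [out] using mem_of_mem_erase hp'.2
      have hvy : y ≠ v := ne_of_mem_erase hp.2
      have hvy' : y' ≠ v := ne_of_mem_erase hp'.2
      have huy : u ≠ y := by rintro rfl; exact hirr _ hy
      have huy' : u' ≠ y' := by rintro rfl; exact hirr _ hy'
      have huu : u = u' := by
        by_contra hne
        -- u ∈ {u', v, y'}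
        have h1 : u ∈ ({u', v, y'} : Finset (Fin n)) := by rw [← heq]; simp
        have h2 : u' ∈ ({u, v, y} : Finset (Fin n)) := by rw [heq]; simp
        simp only [mem_insert, mem_singleton] at h1 h2
        have huv : u ≠ v := by rintro rfl; exact hirr _ hu
        have huv' : u' ≠ v := by rintro rfl; exact hirr _ hu'
        have h1' : u = y' := (h1.resolve_left hne).resolve_left huv
        have h2' : u' = y := (h2.resolve_left (fun hh => hne hh.symm)).resolve_left huv'
        rw [← h1'] at hy'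
        rw [← h2'] at hy
        exact Ty.arc_asymm _ _ hy hy'
      subst huu
      have h3 : y ∈ ({u, v, y'} : Finset (Fin n)) := by rw [← heq]; simp
      simp only [mem_insert, mem_singleton] at h3
      have h3' : y = y' := (h3.resolve_left (fun hh => huy hh.symm)).resolve_left hvy
      rw [h3']
  rw [deg, hsplit, card_union_of_disjoint d123, card_union_of_disjoint d12, c1, c2, c3]

/-- exceptional arcs as pairs of vertices -/
def excPairs : Finset (Fin n × Fin n) := univ.filter fun p => Ty.exc (τ p.1) (τ p.2)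

omit τ in
theorem set4_1 (a a' b b' : Fin n) : ({a, a', b, b'} : Finset (Fin n)) = {a, b, a', b'} := by
  ext x; simp only [mem_insert, mem_singleton]; tauto

omit τ in
theorem set4_2 (a a' b b' : Fin n) : ({a, a', b, b'} : Finset (Fin n)) = {b, a', b', a} := by
  ext x; simp only [mem_insert, mem_singleton]; tauto

omit τ in
theorem set4_3 (a a' b b' : Fin n) : ({a, a', b, b'} : Finset (Fin n)) = {a, b', a', b} := by
  ext x; simp only [mem_insert, mem_singleton]; tauto

omit τ in
theorem set4_4 (a a' b b' : Fin n) : ({a, a', b, b'} : Finset (Fin n)) = {b', a', b, a} := by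
  ext x; simp only [mem_insert, mem_singleton]; tauto

omit τ in
theorem prop_cycle {ab ba ab' b'a a'b ba' a'b' b'a' : Prop}
    (t1 : ab ∨ ba) (t2 : ab' ∨ b'a) (t3 : a'b ∨ ba') (t4 : a'b' ∨ b'a')
    (d1 : ¬ (ab ∧ ab')) (d2 : ¬ (a'b ∧ a'b')) (d3 : ¬ (ba ∧ ba')) (d4 : ¬ (b'a ∧ b'a')) :
    (ab ∧ ba' ∧ a'b' ∧ b'a) ∨ (ab' ∧ b'a' ∧ a'b ∧ ba) := by
  rcases t1 with h1 | h1
  · have n2 : ¬ ab' := fun h => d1 ⟨h1, h⟩
    have h2 : b'a := t2.resolve_left n2
    have n4 : ¬ b'a' := fun h => d4 ⟨h2, h⟩
    have h4 : a'b' := t4.resolve_right n4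
    have n3 : ¬ a'b := fun h => d2 ⟨h, h4⟩
    exact Or.inl ⟨h1, t3.resolve_left n3, h4, h2⟩
  · have n3 : ¬ ba' := fun h => d3 ⟨h1, h⟩
    have h3 : a'b := t3.resolve_right n3
    have n4 : ¬ a'b' := fun h => d2 ⟨h3, h⟩
    have h4 : b'a' := t4.resolve_left n4
    have n2 : ¬ b'a := fun h => d4 ⟨h, h4⟩
    exact Or.inr ⟨t2.resolve_right n2, h4, h3, h1⟩

/-- four distinct vertices, two classes, no edge: union of two exceptional arcs -/
theorem four_case (a a' b b' : Fin n) (hab : a ≠ b) (haa : a ≠ a') (hbb : b ≠ b') (hab' : a ≠ b')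
    (ha'b : a' ≠ b) (ha'b' : a' ≠ b')
    (hca : Ty.cls (τ a) = Ty.cls (τ a')) (hcb : Ty.cls (τ b) = Ty.cls (τ b'))
    (hne : Ty.cls (τ a) ≠ Ty.cls (τ b))
    (hno : ∀ e ∈ graph τ, ¬ e ⊆ {a, a', b, b'}) :
    ∃ p ∈ excPairs τ, ∃ q ∈ excPairs τ, ({a, a', b, b'} : Finset (Fin n)) = {p.1, p.2, q.1, q.2} := by
  classical
  -- no vertex dominates two others
  have hdom : ∀ x y z : Fin n, x ≠ y → x ≠ z → y ≠ z → x ∈ ({a, a', b, b'} : Finset (Fin n)) →
      y ∈ ({a, a', b, b'} : Finset (Fin n)) → z ∈ ({a, a', b, b'} : Finset (Fin n)) →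
      ¬ (Ty.arc (τ x) (τ y) ∧ Ty.arc (τ x) (τ z)) := by
    intro x y z hxy hxz hyz hx hy hz ⟨h1, h2⟩
    apply hno {x, y, z}
    · simp only [graph, mem_filter, mem_powersetCard, subset_univ, true_and]
      refine ⟨by rw [card_eq_three]; exact ⟨x, y, z, hxy, hxz, hyz, rfl⟩, Or.inr ⟨x, by simp, ?_⟩⟩
      intro u hu hux
      simp only [mem_insert, mem_singleton] at hu
      rcases hu with rfl | rfl | rfl
      · exact absurd rfl hux
      · exact h1
      · exact h2
    · intro u hu
      simp only [mem_insert, mem_singleton] at hu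
      rcases hu with rfl | rfl | rfl <;> assumption
  have t1 := Ty.arc_total (τ a) (τ b) hne
  have t2 := Ty.arc_total (τ a) (τ b') (by rw [← hcb]; exact hne)
  have t3 := Ty.arc_total (τ a') (τ b) (by rw [← hca]; exact hne)
  have t4 := Ty.arc_total (τ a') (τ b') (by rw [← hca, ← hcb]; exact hne)
  have d1 := hdom a b b' hab hab' hbb (by simp) (by simp) (by simp)
  have d2 := hdom a' b b' ha'b ha'b' hbb (by simp) (by simp) (by simp)
  have d3 := hdom b a a' hab.symm ha'b.symm haa (by simp) (by simp) (by simp)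
  have d4 := hdom b' a a' hab'.symm ha'b'.symm haa (by simp) (by simp) (by simp)
  have hcyc : (Ty.arc (τ a) (τ b) ∧ Ty.arc (τ b) (τ a') ∧ Ty.arc (τ a') (τ b') ∧ Ty.arc (τ b') (τ a)) ∨
      (Ty.arc (τ a) (τ b') ∧ Ty.arc (τ b') (τ a') ∧ Ty.arc (τ a') (τ b) ∧ Ty.arc (τ b) (τ a)) :=
    prop_cycle t1 t2 t3 t4 d1 d2 d3 d4
  rcases hcyc with ⟨c1, c2, c3, c4⟩ | ⟨c1, c2, c3, c4⟩
  · rcases Ty.cycle_exc _ _ _ _ hca hcb c1 c2 c3 c4 with ⟨e1, e2⟩ | ⟨e1, e2⟩
    · refine ⟨(a, b), by simpa [excPairs] using e1, (a', b'), by simpa [excPairs] using e2, ?_⟩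
      exact set4_1 a a' b b'
    · refine ⟨(b, a'), by simpa [excPairs] using e1, (b', a), by simpa [excPairs] using e2, ?_⟩
      exact set4_2 a a' b b'
  · rcases Ty.cycle_exc _ _ _ _ hca hcb.symm c1 c2 c3 c4 with ⟨e1, e2⟩ | ⟨e1, e2⟩
    · refine ⟨(a, b'), by simpa [excPairs] using e1, (a', b), by simpa [excPairs] using e2, ?_⟩
      exact set4_3 a a' b b'
    · refine ⟨(b', a'), by simpa [excPairs] using e1, (b, a), by simpa [excPairs] using e2, ?_⟩
      exact set4_4 a a' b b'

/-- in an independent 4-set no vertex dominates two others -/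
theorem no_dom {S : Finset (Fin n)} (hno : ∀ e ∈ graph τ, ¬ e ⊆ S) (x y z : Fin n)
    (hxy : x ≠ y) (hxz : x ≠ z) (hyz : y ≠ z) (hx : x ∈ S) (hy : y ∈ S) (hz : z ∈ S) :
    ¬ (Ty.arc (τ x) (τ y) ∧ Ty.arc (τ x) (τ z)) := by
  rintro ⟨h1, h2⟩
  apply hno {x, y, z}
  · simp only [graph, mem_filter, mem_powersetCard, subset_univ, true_and]
    refine ⟨by rw [card_eq_three]; exact ⟨x, y, z, hxy, hxz, hyz, rfl⟩, Or.inr ⟨x, by simp, ?_⟩⟩
    intro u hu hux
    simp only [mem_insert, mem_singleton] at hu
    rcases hu with rfl | rfl | rfl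
    · exact absurd rfl hux
    · exact h1
    · exact h2
  · intro u hu
    simp only [mem_insert, mem_singleton] at hu
    rcases hu with rfl | rfl | rfl <;> assumption

/-- in an independent 4-set no three vertices are in one class -/
theorem no_mono {S : Finset (Fin n)} (hno : ∀ e ∈ graph τ, ¬ e ⊆ S) (x y z : Fin n)
    (hxy : x ≠ y) (hxz : x ≠ z) (hyz : y ≠ z) (hx : x ∈ S) (hy : y ∈ S) (hz : z ∈ S)
    (h1 : Ty.cls (τ x) = Ty.cls (τ y)) : Ty.cls (τ x) ≠ Ty.cls (τ z) := by
  intro h2
  apply hno {x, y, z}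
  · simp only [graph, mem_filter, mem_powersetCard, subset_univ, true_and]
    refine ⟨by rw [card_eq_three]; exact ⟨x, y, z, hxy, hxz, hyz, rfl⟩, Or.inl ?_⟩
    intro u hu v hv
    simp only [mem_insert, mem_singleton] at hu hv
    rcases hu with rfl | rfl | rfl <;> rcases hv with rfl | rfl | rfl <;> simp_all
  · intro u hu
    simp only [mem_insert, mem_singleton] at hu
    rcases hu with rfl | rfl | rfl <;> assumption

theorem indep4_subset : indep4 (graph τ) ⊆
    ((excPairs τ) ×ˢ (excPairs τ)).image fun pq => {pq.1.1, pq.1.2, pq.2.1, pq.2.2} := by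
  classical
  intro S hS
  simp only [indep4, mem_filter, mem_powersetCard, subset_univ, true_and] at hS
  obtain ⟨hS4, hno⟩ := hS
  -- two vertices in the same class
  obtain ⟨a, ha, a', ha', haa, hcl⟩ : ∃ a ∈ S, ∃ a' ∈ S, a ≠ a' ∧ Ty.cls (τ a) = Ty.cls (τ a') := by
    apply Finset.exists_ne_map_eq_of_card_lt_of_maps_to (t := (univ : Finset (Fin 3)))
    · simp [hS4]
    · intro x _; simp
  have hcard2 : ((S.erase a).erase a').card = 2 := by
    rw [card_erase_of_mem (mem_erase.mpr ⟨haa.symm, ha'⟩), card_erase_of_mem ha, hS4]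
  obtain ⟨b, b', hbb, hbb'⟩ := card_eq_two.mp hcard2
  have hb : b ∈ (S.erase a).erase a' := by rw [hbb']; simp
  have hb' : b' ∈ (S.erase a).erase a' := by rw [hbb']; simp
  have hba' : b ≠ a' := ne_of_mem_erase hb
  have hba : b ≠ a := ne_of_mem_erase (mem_of_mem_erase hb)
  have hbS : b ∈ S := mem_of_mem_erase (mem_of_mem_erase hb)
  have hb'a' : b' ≠ a' := ne_of_mem_erase hb'
  have hb'a : b' ≠ a := ne_of_mem_erase (mem_of_mem_erase hb')
  have hb'S : b' ∈ S := mem_of_mem_erase (mem_of_mem_erase hb')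
  have hSeq : S = {a, a', b, b'} := by
    rw [← insert_erase ha, ← insert_erase (mem_erase.mpr ⟨haa.symm, ha'⟩ : a' ∈ S.erase a), hbb']
  have hnb : Ty.cls (τ a) ≠ Ty.cls (τ b) := no_mono τ hno a a' b haa hba.symm hba'.symm ha ha' hbS hcl
  have hnb' : Ty.cls (τ a) ≠ Ty.cls (τ b') :=
    no_mono τ hno a a' b' haa hb'a.symm hb'a'.symm ha ha' hb'S hcl
  have hcb : Ty.cls (τ b) = Ty.cls (τ b') := by
    by_contra hcb
    have t1 := Ty.arc_total (τ a) (τ b) hnb
    have t2 := Ty.arc_total (τ a) (τ b') hnb'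
    have t3 := Ty.arc_total (τ a') (τ b) (by rw [← hcl]; exact hnb)
    have t4 := Ty.arc_total (τ a') (τ b') (by rw [← hcl]; exact hnb')
    have t5 := Ty.arc_total (τ b) (τ b') hcb
    have d1 := no_dom τ hno a b b' hba.symm hb'a.symm hbb ha hbS hb'S
    have d2 := no_dom τ hno a' b b' hba'.symm hb'a'.symm hbb ha' hbS hb'S
    have d3 := no_dom τ hno b a a' hba hba' haa hbS ha ha'
    have d4 := no_dom τ hno b' a a' hb'a hb'a' haa hb'S ha ha'
    have d5 := no_dom τ hno b a b' hba hbb hb'a.symm hbS ha hb'S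
    have d6 := no_dom τ hno b a' b' hba' hbb hb'a'.symm hbS ha' hb'S
    have d7 := no_dom τ hno b' a b hb'a hbb.symm hba.symm hb'S ha hbS
    have d8 := no_dom τ hno b' a' b hb'a' hbb.symm hba'.symm hb'S ha' hbS
    rcases prop_cycle t1 t2 t3 t4 d1 d2 d3 d4 with ⟨c1, c2, c3, c4⟩ | ⟨c1, c2, c3, c4⟩
    · rcases t5 with h | h
      · exact d6 ⟨c2, h⟩
      · exact d7 ⟨c4, h⟩
    · rcases t5 with h | h
      · exact d5 ⟨c4, h⟩
      · exact d8 ⟨c2, h⟩
  obtain ⟨p, hp, q, hq, hpq⟩ := four_case τ a a' b b' hba.symm haa hbb hb'a.symm hba'.symm hb'a'.symm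
    hcl hcb hnb (by rw [← hSeq]; exact hno)
  simp only [mem_image, mem_product]
  exact ⟨(p, q), ⟨hp, hq⟩, by rw [hSeq]; exact hpq.symm⟩

theorem indep4_card_le : (indep4 (graph τ)).card ≤ (excPairs τ).card ^ 2 := by
  refine (card_le_card (indep4_subset τ)).trans (card_image_le.trans ?_)
  rw [card_product, sq]

/-- number of exceptional arcs -/
theorem excPairs_card {s : Ty l k → ℕ} (hτ : ∀ t, (univ.filter fun v => τ v = t).card = s t) :
    (excPairs τ).card = ∑ i, s (.S1 i) * s (.V2 i) + ∑ j, s (.V1 j) * s (.S2 j) := by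
  classical
  have h1 : (excPairs τ).card = ∑ v : Fin n, (univ.filter fun y => Ty.exc (τ v) (τ y)).card := by
    rw [Finset.card_eq_sum_card_fiberwise (f := Prod.fst) (t := univ) (by intro v _; simp)]
    apply Finset.sum_congr rfl
    intro v _
    refine Finset.card_bij (fun p _ => p.2) ?_ ?_ ?_
    · intro p hp
      simp only [excPairs, mem_filter, mem_univ, true_and] at hp ⊢
      rw [← hp.2]; exact hp.1
    · intro p hp q hq h
      simp only [excPairs, mem_filter, mem_univ, true_and] at hp hq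
      exact Prod.ext (hp.2.trans hq.2.symm) h
    · intro y hy
      refine ⟨(v, y), ?_, rfl⟩
      simpa [excPairs] using hy
  have h2 : ∀ v : Fin n, (univ.filter fun y => Ty.exc (τ v) (τ y)).card =
      ∑ t, if Ty.exc (τ v) t then s t else 0 := fun v => card_typing hτ (fun t => Ty.exc (τ v) t)
  rw [h1, Finset.sum_congr rfl (fun v _ => h2 v)]
  -- group by the type of v
  have h3 : ∑ v : Fin n, (∑ t, if Ty.exc (τ v) t then s t else 0) =
      ∑ u : Ty l k, s u * ∑ t, if Ty.exc u t then s t else 0 := by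
    rw [← Finset.sum_fiberwise (s := univ) (g := τ)]
    apply Finset.sum_congr rfl
    intro u _
    rw [← hτ u, ← smul_eq_mul, ← Finset.sum_const]
    apply Finset.sum_congr rfl
    intro v hv
    rw [(mem_filter.mp hv).2]
  rw [h3, Ty.sum_ty]
  simp only [Ty.sum_ty, Ty.exc]
  simp
  ring

end Graph

end Pool.Agent.H4
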