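import Mathlib
import Pool.Agent.H4.BFamily

/-!
The sizes of the construction and the numerical estimates.
-/

namespace Pool.Agent.H4

open Finset

/-! sizes as polynomials in `q`; there are `2(q+1)` types `V1`, `S2` and `3(q+1)` types `V2`, `S1` -/
def szG (q : ℕ) : ℕ := 2592 * q ^ 4 + 9072 * q ^ 3 + 11736 * q ^ 2 + 6738 * q + 1482
def szC (q : ℕ) : ℕ := 1296 * q ^ 3 + 3672 * q ^ 2 + 3276 * q + 891
def szB (q : ℕ) : ℕ := 864 * q ^ 3 + 2592 * q ^ 2 + 2508 * q + 748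
def szA (q : ℕ) : ℕ := 432 * q ^ 2 + 948 * q + 516
def szE (q : ℕ) : ℕ := 216 * q ^ 2 + 576 * q + 360
/-- number of vertices -/
def totP (q : ℕ) : ℕ := 7776 * (q + 1) ^ 4

/-! out-degrees -/
def oV0 (q : ℕ) : ℕ := 2 * (q + 1) * (szC q + szE q)
def oV1 (q : ℕ) : ℕ := 3 * (q + 1) * szB q + szE q
def oV2 (q : ℕ) : ℕ := szG q + (3 * q + 2) * szA q
def oS1 (q : ℕ) : ℕ := szG q + szB q
def oS2 (q : ℕ) : ℕ := 3 * (q + 1) * szA q + (2 * q + 1) * szC q

/-! class sizes -/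
def clX1 (q : ℕ) : ℕ := 2 * (q + 1) * szC q + 3 * (q + 1) * szA q
def clX2 (q : ℕ) : ℕ := 3 * (q + 1) * szB q + 2 * (q + 1) * szE q
def clX (q : ℕ) (i : Fin 3) : ℕ := if i = 0 then szG q else if i = 1 then clX1 q else clX2 q

/-- number of exceptional arcs -/
def numE (q : ℕ) : ℕ := 3 * (q + 1) * (szA q * szB q) + 2 * (q + 1) * (szC q * szE q)

/-- fibre sizes -/
def sz (q m : ℕ) : Ty (2 * (q + 1)) (3 * (q + 1)) → ℕ
  | .V0 => m * szG q
  | .V1 _ => m * szC q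
  | .V2 _ => m * szB q
  | .S1 _ => m * szA q
  | .S2 _ => m * szE q

/-- out-degrees as a function of the type -/
def od (q : ℕ) : Ty (2 * (q + 1)) (3 * (q + 1)) → ℕ
  | .V0 => oV0 q
  | .V1 _ => oV1 q
  | .V2 _ => oV2 q
  | .S1 _ => oS1 q
  | .S2 _ => oS2 q

/-- sum of out-degrees over in-neighbours -/
def ins (q : ℕ) : Ty (2 * (q + 1)) (3 * (q + 1)) → ℕ
  | .V0 => 3 * (q + 1) * (szB q * oV2 q) + 3 * (q + 1) * (szA q * oS1 q)
  | .V1 _ => szG q * oV0 q + (2 * q + 1) * (szE q * oS2 q)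
  | .V2 _ => 2 * (q + 1) * (szC q * oV1 q) + szA q * oS1 q
  | .S1 _ => 2 * (q + 1) * (szE q * oS2 q) + (3 * q + 2) * (szB q * oV2 q)
  | .S2 _ => szG q * oV0 q + szC q * oV1 q

/-- twice the degree, in the limit -/
def degT (q : ℕ) (t : Ty (2 * (q + 1)) (3 * (q + 1))) : ℕ :=
  clX q (Ty.cls t) ^ 2 + od q t ^ 2 + 2 * ins q t

theorem sum_ite_ne_fin {K : ℕ} (i : Fin K) (x : ℕ) :
    ∑ j : Fin K, (if i = j then 0 else x) = (K - 1) * x := by
  have h : ∑ j : Fin K, (if i = j then 0 else x) = ∑ j : Fin K, (if i ≠ j then x else 0) := by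
    apply Finset.sum_congr rfl
    intro j _
    by_cases h : i = j <;> simp [h]
  rw [h, ← Finset.sum_filter, Finset.sum_const, smul_eq_mul]
  congr 1
  have : (univ.filter fun j => i ≠ j) = univ.erase i := by
    ext j; simp [eq_comm]
  rw [this, card_erase_of_mem (mem_univ _)]
  simp

theorem sum_ite_ne_fin' {K : ℕ} (i : Fin K) (x : ℕ) :
    ∑ j : Fin K, (if j = i then 0 else x) = (K - 1) * x := by
  rw [← sum_ite_ne_fin i x]
  apply Finset.sum_congr rfl
  intro j _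
  simp [eq_comm]

theorem sum_sz (q m : ℕ) : ∑ t, sz q m t = m * totP q := by
  rw [Ty.sum_ty]
  simp only [sz, Finset.sum_const, card_univ, Fintype.card_fin, smul_eq_mul]
  simp only [szG, szA, szB, szC, szE, totP]
  ring

theorem outdeg (q m : ℕ) (u : Ty (2 * (q + 1)) (3 * (q + 1))) :
    (∑ t, if Ty.arc u t then sz q m t else 0) = m * od q u := by
  rw [Ty.sum_ty]
  have e1 : 2 * (q + 1) - 1 = 2 * q + 1 := by omega
  have e2 : 3 * (q + 1) - 1 = 3 * q + 2 := by omega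
  cases u <;>
    simp only [sz, Ty.arc, sum_ite_ne_fin, Finset.sum_ite_eq, Finset.sum_const,
      card_univ, Fintype.card_fin, smul_eq_mul, e1, e2, if_true, if_false, Finset.mem_univ,
      add_zero, zero_add, mul_zero, ne_eq, ite_not,
      od, oV0, oV1, oV2, oS1, oS2] <;> ring

theorem insum (q m : ℕ) (u : Ty (2 * (q + 1)) (3 * (q + 1))) :
    (∑ t, if Ty.arc t u then sz q m t * (m * od q t) else 0) = m ^ 2 * ins q u := by
  rw [Ty.sum_ty]
  have e1 : 2 * (q + 1) - 1 = 2 * q + 1 := by omega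
  have e2 : 3 * (q + 1) - 1 = 3 * q + 2 := by omega
  cases u <;>
    simp only [sz, Ty.arc, sum_ite_ne_fin', Finset.sum_ite_eq', Finset.sum_const,
      card_univ, Fintype.card_fin, smul_eq_mul, e1, e2, if_true, if_false, Finset.mem_univ,
      add_zero, zero_add, mul_zero, ne_eq, ite_not, od, ins] <;> ring

theorem clsize (q m : ℕ) (i : Fin 3) :
    (∑ t, if Ty.cls t = i then sz q m t else 0) = m * clX q i := by
  rw [Ty.sum_ty]
  fin_cases i <;>
    simp [sz, Ty.cls, clX, clX1, clX2] <;> ring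

/-- weighted count over vertices whose type satisfies `P` -/
theorem sum_typing {T : Type} [Fintype T] [DecidableEq T] {s : T → ℕ} {n : ℕ} {τ : Fin n → T}
    (hτ : ∀ t, (univ.filter fun v => τ v = t).card = s t) (P : T → Prop) [DecidablePred P]
    (g : T → ℕ) :
    (∑ v ∈ univ.filter fun v => P (τ v), g (τ v)) = ∑ t, if P t then s t * g t else 0 := by
  classical
  rw [← Finset.sum_fiberwise (s := univ.filter fun v => P (τ v)) (g := τ)]
  apply Finset.sum_congr rfl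
  intro t _
  by_cases h : P t
  · rw [if_pos h, ← hτ t, ← smul_eq_mul, ← Finset.sum_const]
    have : ((univ.filter fun v => P (τ v)).filter fun v => τ v = t) =
        univ.filter fun v => τ v = t := by
      ext v
      simp only [mem_filter, mem_univ, true_and]
      constructor
      · rintro ⟨_, h2⟩; exact h2
      · intro h2; exact ⟨h2 ▸ h, h2⟩
    rw [this]
    apply Finset.sum_congr rfl
    intro v hv
    rw [(mem_filter.mp hv).2]
  · rw [if_neg h]
    apply Finset.sum_eq_zero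
    intro v hv
    simp only [mem_filter, mem_univ, true_and] at hv
    exact absurd (hv.2 ▸ hv.1) h

section Poly

theorem degT_ge (q : ℕ) (t : Ty (2 * (q + 1)) (3 * (q + 1))) : degT q .V0 ≤ degT q t := by
  have h : ∃ a : ℕ, degT q t = degT q .V0 + a := by
    cases t with
    | V0 => exact ⟨0, (Nat.add_zero _).symm⟩
    | V1 j => exact ⟨398484 + 1653624 * q + 2523924 * q ^ 2 + 1683504 * q ^ 3 + 414720 * q ^ 4, by
        simp only [degT, Ty.cls, clX, od, ins, clX1, clX2, oV0, oV1, oV2, oS1, oS2, szG, szC, szB,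
          szA, szE, if_true, one_ne_zero, if_false]; ring⟩
    | V2 j => exact ⟨44268 + 169944 * q + 222444 * q ^ 2 + 117504 * q ^ 3 + 20736 * q ^ 4, by
        simp only [degT, Ty.cls, clX, od, ins, clX1, clX2, oV0, oV1, oV2, oS1, oS2, szG, szC, szB,
          szA, szE, if_true, Fin.reduceEq, if_false]; ring⟩
    | S1 j => exact ⟨452608 + 1633248 * q + 2192976 * q ^ 2 + 1292544 * q ^ 3 + 281232 * q ^ 4, by
        simp only [degT, Ty.cls, clX, od, ins, clX1, clX2, oV0, oV1, oV2, oS1, oS2, szG, szC, szB,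
          szA, szE, if_true, one_ne_zero, if_false]; ring⟩
    | S2 j => exact ⟨147033 + 494460 * q + 633060 * q ^ 2 + 368496 * q ^ 3 + 82944 * q ^ 4, by
        simp only [degT, Ty.cls, clX, od, ins, clX1, clX2, oV0, oV1, oV2, oS1, oS2, szG, szC, szB,
          szA, szE, if_true, Fin.reduceEq, if_false]; ring⟩
  obtain ⟨a, ha⟩ := h
  omega

theorem degT_le (q : ℕ) (t : Ty (2 * (q + 1)) (3 * (q + 1))) :
    degT q t ≤ degT q .V0 + 1000000 * (q + 1) ^ 4 := by
  have h : ∃ a : ℕ, degT q t + a = degT q .V0 + 1000000 * (q + 1) ^ 4 := by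
    cases t with
    | V0 => exact ⟨1000000 * (q + 1) ^ 4, rfl⟩
    | V1 j => exact ⟨601516 + 2346376 * q + 3476076 * q ^ 2 + 2316496 * q ^ 3 + 585280 * q ^ 4, by
        simp only [degT, Ty.cls, clX, od, ins, clX1, clX2, oV0, oV1, oV2, oS1, oS2, szG, szC, szB,
          szA, szE, if_true, one_ne_zero, if_false]; ring⟩
    | V2 j => exact ⟨955732 + 3830056 * q + 5777556 * q ^ 2 + 3882496 * q ^ 3 + 979264 * q ^ 4, by
        simp only [degT, Ty.cls, clX, od, ins, clX1, clX2, oV0, oV1, oV2, oS1, oS2, szG, szC, szB,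
          szA, szE, if_true, Fin.reduceEq, if_false]; ring⟩
    | S1 j => exact ⟨547392 + 2366752 * q + 3807024 * q ^ 2 + 2707456 * q ^ 3 + 718768 * q ^ 4, by
        simp only [degT, Ty.cls, clX, od, ins, clX1, clX2, oV0, oV1, oV2, oS1, oS2, szG, szC, szB,
          szA, szE, if_true, one_ne_zero, if_false]; ring⟩
    | S2 j => exact ⟨852967 + 3505540 * q + 5366940 * q ^ 2 + 3631504 * q ^ 3 + 917056 * q ^ 4, by
        simp only [degT, Ty.cls, clX, od, ins, clX1, clX2, oV0, oV1, oV2, oS1, oS2, szG, szC, szB,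
          szA, szE, if_true, Fin.reduceEq, if_false]; ring⟩
  obtain ⟨a, ha⟩ := h
  omega

theorem degT_V0_le (q : ℕ) : degT q .V0 ≤ totP q ^ 2 := by
  have h : totP q ^ 2 = degT q .V0 + (33822936 + 269662896 * q + 942045048 * q ^ 2 +
      1882301760 * q ^ 3 + 2351890080 * q ^ 4 + 1881232128 * q ^ 5 + 940584960 * q ^ 6 +
      268738560 * q ^ 7 + 33592320 * q ^ 8) := by
    simp only [degT, Ty.cls, clX, od, ins, oV0, oV2, oS1, szG, szC, szB,
      szA, szE, if_true, totP]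
    ring
  omega

theorem numE_le (q : ℕ) : numE q ≤ 2000000 * (q + 1) ^ 6 := by
  have h : 2000000 * (q + 1) ^ 6 = numE q + (200576 + 805728 * q + 1687872 * q ^ 2 +
      2544736 * q ^ 3 + 2566272 * q ^ 4 + 1424640 * q ^ 5 + 320384 * q ^ 6) := by
    simp only [numE, szC, szB, szA, szE]
    ring
  omega

/-- the excess polynomial -/
noncomputable def Dl (q : ℕ) : ℝ :=
  4 * (totP q : ℝ) ^ 3 - 9 * ((szG q : ℝ) ^ 3 + (clX1 q : ℝ) ^ 3 + (clX2 q : ℝ) ^ 3) -
    27 * ((szG q : ℝ) * (oV0 q : ℝ) ^ 2 + 2 * ((q : ℝ) + 1) * ((szC q : ℝ) * (oV1 q : ℝ) ^ 2) +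
      3 * ((q : ℝ) + 1) * ((szB q : ℝ) * (oV2 q : ℝ) ^ 2) +
      3 * ((q : ℝ) + 1) * ((szA q : ℝ) * (oS1 q : ℝ) ^ 2) +
      2 * ((q : ℝ) + 1) * ((szE q : ℝ) * (oS2 q : ℝ) ^ 2))

theorem Dl_ge (q : ℕ) : 1000000000 * ((q : ℝ) + 1) ^ 9 ≤ Dl q := by
  have h : Dl q = 1595998728 + 19186648200 * (q : ℝ) + 91394848584 * (q : ℝ) ^ 2 +
      240918957720 * (q : ℝ) ^ 3 + 397285556112 * (q : ℝ) ^ 4 + 430141259520 * (q : ℝ) ^ 5 +
      307554905664 * (q : ℝ) ^ 6 + 140417577216 * (q : ℝ) ^ 7 + 37186698240 * (q : ℝ) ^ 8 +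
      4353564672 * (q : ℝ) ^ 9 := by
    simp only [Dl, totP, szG, clX1, clX2, oV0, oV1, oV2, oS1, oS2, szC, szE, szA, szB]
    push_cast
    ring
  have h2 : Dl q - 1000000000 * ((q : ℝ) + 1) ^ 9 = 595998728 + 10186648200 * (q : ℝ) +
      55394848584 * (q : ℝ) ^ 2 + 156918957720 * (q : ℝ) ^ 3 + 271285556112 * (q : ℝ) ^ 4 +
      304141259520 * (q : ℝ) ^ 5 + 223554905664 * (q : ℝ) ^ 6 + 104417577216 * (q : ℝ) ^ 7 +
      28186698240 * (q : ℝ) ^ 8 + 3353564672 * (q : ℝ) ^ 9 := by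
    rw [h]; ring
  have h3 : 0 ≤ Dl q - 1000000000 * ((q : ℝ) + 1) ^ 9 := by
    rw [h2]; positivity
  linarith

end Poly

theorem choose_three_le (x : ℕ) : ((x.choose 3 : ℕ) : ℝ) ≤ (x : ℝ) ^ 3 / 6 := by
  have := Nat.choose_le_pow_div (α := ℝ) 3 x
  simpa [Nat.factorial] using this

theorem choose_two_le (x : ℕ) : ((x.choose 2 : ℕ) : ℝ) ≤ (x : ℝ) ^ 2 / 2 := by
  have := Nat.choose_le_pow_div (α := ℝ) 2 x
  simpa [Nat.factorial] using this

theorem choose_three_ge (x : ℕ) : ((x : ℝ) ^ 3 - 3 * (x : ℝ) ^ 2) / 6 ≤ ((x.choose 3 : ℕ) : ℝ) := by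
  rcases Nat.lt_or_ge x 3 with h | h
  · interval_cases x <;> norm_num [Nat.choose]
  · have h1 : ((x.choose 3 : ℕ) : ℝ) = x * (x - 1) * (x - 2) / 6 := by
      rw [Nat.cast_choose_eq_ascPochhammer_div]
      simp [ascPochhammer_succ_right, Nat.factorial]
      have e1 : ((x - 2 : ℕ) : ℝ) = (x : ℝ) - 2 := by
        rw [Nat.cast_sub (by omega)]; norm_num
      rw [e1]; ring
    rw [h1]
    have : (0 : ℝ) ≤ x := by positivity
    nlinarith

theorem choose_four_ge (x : ℕ) (h : 12 ≤ x) : ((x : ℝ) ^ 4) / 48 ≤ ((x.choose 4 : ℕ) : ℝ) := by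
  have h1 : ((x.choose 4 : ℕ) : ℝ) = x * (x - 1) * (x - 2) * (x - 3) / 24 := by
    rw [Nat.cast_choose_eq_ascPochhammer_div]
    simp [ascPochhammer_succ_right, Nat.factorial]
    have e1 : ((x - 3 : ℕ) : ℝ) = (x : ℝ) - 3 := by
      rw [Nat.cast_sub (by omega)]; norm_num
    rw [e1]; ring
  rw [h1]
  have hx : (12 : ℝ) ≤ x := by exact_mod_cast h
  have : (x : ℝ) ^ 4 / 48 ≤ x * (x - 1) * (x - 2) * (x - 3) / 24 ↔
      0 ≤ x * (2 * ((x - 1) * (x - 2) * (x - 3)) - (x : ℝ) ^ 3) := by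
    constructor <;> intro h <;> nlinarith
  rw [this]
  apply mul_nonneg (by linarith)
  nlinarith [sq_nonneg ((x : ℝ) - 12), mul_nonneg (sub_nonneg.mpr hx) (sq_nonneg (x : ℝ))]

theorem excPairs_card_sz {q m n : ℕ} (τ : Fin n → Ty (2 * (q + 1)) (3 * (q + 1)))
    (hτ : ∀ t, (univ.filter fun v => τ v = t).card = sz q m t) :
    (excPairs τ).card = m ^ 2 * numE q := by
  rw [excPairs_card τ hτ]
  simp only [sz, Finset.sum_const, card_univ, Fintype.card_fin, smul_eq_mul, numE]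
  ring

section Sizes

variable {q m n : ℕ} (τ : Fin n → Ty (2 * (q + 1)) (3 * (q + 1)))
  (hτ : ∀ t, (univ.filter fun v => τ v = t).card = sz q m t)

include hτ

theorem cl_card (i : Fin 3) : (cl τ i).card = m * clX q i := by
  rw [← clsize q m i]
  exact card_typing hτ (fun t => Ty.cls t = i)

theorem out_card (v : Fin n) : (out τ v).card = m * od q (τ v) := by
  rw [← outdeg q m (τ v)]
  exact card_typing hτ (fun t => Ty.arc (τ v) t)

theorem inn_sum (v : Fin n) : ∑ u ∈ inn τ v, (out τ u).card = m ^ 2 * ins q (τ v) := by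
  rw [← insum q m (τ v), Finset.sum_congr rfl (fun u _ => out_card τ hτ u)]
  exact sum_typing hτ (fun t => Ty.arc t (τ v)) (fun t => m * od q t)

theorem graph_card_sz (hn : n = m * totP q) :
    ((graph τ).card : ℝ) ≤ (4 / 54 * (totP q : ℝ) ^ 3 - Dl q / 54) * (m : ℝ) ^ 3 := by
  have h1 := graph_card_le τ
  have h4 : ((graph τ).card : ℝ) ≤ ∑ i : Fin 3, (((cl τ i).card.choose 3 : ℕ) : ℝ) +
      ∑ v : Fin n, (((out τ v).card.choose 2 : ℕ) : ℝ) := by
    exact_mod_cast h1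
  have h5 : ∑ i : Fin 3, (((cl τ i).card.choose 3 : ℕ) : ℝ) ≤
      (m : ℝ) ^ 3 * ((szG q : ℝ) ^ 3 + (clX1 q : ℝ) ^ 3 + (clX2 q : ℝ) ^ 3) / 6 := by
    rw [Fin.sum_univ_three, cl_card τ hτ 0, cl_card τ hτ 1, cl_card τ hτ 2]
    simp only [clX, if_true, Fin.isValue, one_ne_zero, if_false, Fin.reduceEq]
    have e0 := choose_three_le (m * szG q)
    have e1 := choose_three_le (m * clX1 q)
    have e2 := choose_three_le (m * clX2 q)
    push_cast at e0 e1 e2
    nlinarith [e0, e1, e2]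
  have h6 : ∑ v : Fin n, (((out τ v).card.choose 2 : ℕ) : ℝ) ≤
      (m : ℝ) ^ 3 * ((szG q : ℝ) * (oV0 q : ℝ) ^ 2 +
        2 * ((q : ℝ) + 1) * ((szC q : ℝ) * (oV1 q : ℝ) ^ 2) +
        3 * ((q : ℝ) + 1) * ((szB q : ℝ) * (oV2 q : ℝ) ^ 2) +
        3 * ((q : ℝ) + 1) * ((szA q : ℝ) * (oS1 q : ℝ) ^ 2) +
        2 * ((q : ℝ) + 1) * ((szE q : ℝ) * (oS2 q : ℝ) ^ 2)) / 2 := by
    have e1 : ∀ v ∈ (univ : Finset (Fin n)), (((out τ v).card.choose 2 : ℕ) : ℝ) ≤
        (((m * od q (τ v)) ^ 2 : ℕ) : ℝ) / 2 := by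
      intro v _
      rw [out_card τ hτ v]
      have := choose_two_le (m * od q (τ v))
      push_cast at this ⊢
      exact this
    refine (Finset.sum_le_sum e1).trans ?_
    rw [← Finset.sum_div, ← Nat.cast_sum]
    have e2 : ∑ v : Fin n, (m * od q (τ v)) ^ 2 =
        ∑ t, sz q m t * (m * od q t) ^ 2 := by
      have := sum_typing hτ (fun _ => True) (fun t => (m * od q t) ^ 2)
      simpa using this
    rw [e2, Ty.sum_ty]
    simp only [sz, od, Finset.sum_const, card_univ, Fintype.card_fin, smul_eq_mul]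
    push_cast
    apply le_of_eq
    ring
  simp only [Dl]
  nlinarith [h4, h5, h6]

/-- twice the degree is `m² degT` up to `6n` -/
theorem deg_bounds (hm : 1 ≤ m) (v : Fin n) :
    2 * (deg (graph τ) v : ℝ) ≤ (m : ℝ) ^ 2 * (degT q (τ v) : ℝ) ∧
      (m : ℝ) ^ 2 * (degT q (τ v) : ℝ) - 6 * (n : ℝ) ≤ 2 * (deg (graph τ) v : ℝ) := by
  have h := deg_graph τ v
  have hX : (cl τ (Ty.cls (τ v))).card = m * clX q (Ty.cls (τ v)) := cl_card τ hτ _
  have hD : (out τ v).card = m * od q (τ v) := out_card τ hτ v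
  have hclpos : 1 ≤ (cl τ (Ty.cls (τ v))).card := by
    rw [Nat.succ_le_iff, card_pos]
    exact ⟨v, by simp [cl]⟩
  have hcln : (cl τ (Ty.cls (τ v))).card ≤ n := by
    simpa using card_le_univ (cl τ (Ty.cls (τ v)))
  have houtn : (out τ v).card ≤ n := by simpa using card_le_univ (out τ v)
  have hinnn : (inn τ v).card ≤ n := by simpa using card_le_univ (inn τ v)
  have hpos : ∀ u ∈ inn τ v, 1 ≤ (out τ u).card := by
    intro u hu
    rw [Nat.succ_le_iff, card_pos]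
    exact ⟨v, by simpa [out, inn] using hu⟩
  have hsum : ∑ u ∈ inn τ v, ((out τ u).card - 1) + (inn τ v).card = m ^ 2 * ins q (τ v) := by
    rw [← inn_sum τ hτ v, Finset.card_eq_sum_ones, ← Finset.sum_add_distrib]
    apply Finset.sum_congr rfl
    intro u hu
    have := hpos u hu
    omega
  have hsumR : ((∑ u ∈ inn τ v, ((out τ u).card - 1) : ℕ) : ℝ) + ((inn τ v).card : ℝ) =
      (m : ℝ) ^ 2 * (ins q (τ v) : ℝ) := by
    exact_mod_cast hsum
  -- real versions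
  set X : ℕ := (cl τ (Ty.cls (τ v))).card with hXdef
  set D : ℕ := (out τ v).card with hDdef
  have e1 : (((X - 1).choose 2 : ℕ) : ℝ) = ((X : ℝ) - 1) * ((X : ℝ) - 2) / 2 := by
    rw [Nat.cast_choose_two, Nat.cast_sub hclpos]
    push_cast; ring
  have e2 : ((D.choose 2 : ℕ) : ℝ) = (D : ℝ) * ((D : ℝ) - 1) / 2 := Nat.cast_choose_two _ _
  have hR : (deg (graph τ) v : ℝ) = ((X : ℝ) - 1) * ((X : ℝ) - 2) / 2 + (D : ℝ) * ((D : ℝ) - 1) / 2 +
      ((∑ u ∈ inn τ v, ((out τ u).card - 1) : ℕ) : ℝ) := by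
    rw [h, ← e1, ← e2]
    push_cast
    ring
  have hdT : (m : ℝ) ^ 2 * (degT q (τ v) : ℝ) = (X : ℝ) ^ 2 + (D : ℝ) ^ 2 +
      2 * ((m : ℝ) ^ 2 * (ins q (τ v) : ℝ)) := by
    rw [hX, hD]
    simp only [degT]
    push_cast
    ring
  have hX1 : (1 : ℝ) ≤ X := by exact_mod_cast hclpos
  have hXn : (X : ℝ) ≤ n := by exact_mod_cast hcln
  have hDn : (D : ℝ) ≤ n := by exact_mod_cast houtn
  have hD0 : (0 : ℝ) ≤ D := Nat.cast_nonneg _
  have hIn : ((inn τ v).card : ℝ) ≤ n := by exact_mod_cast hinnn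
  have hI0 : (0 : ℝ) ≤ ((inn τ v).card : ℝ) := Nat.cast_nonneg _
  rw [hdT, ← hsumR, hR]
  constructor
  · nlinarith
  · nlinarith

end Sizes

theorem aux_nonneg (g x1 x2 r c o0 o1 o2 a b e s1 s2 : ℝ) (hg : 0 ≤ g) (hx1 : 0 ≤ x1)
    (hx2 : 0 ≤ x2) (hr : 0 ≤ r) (hc : 0 ≤ c) (ha : 0 ≤ a) (hb : 0 ≤ b) (he : 0 ≤ e) :
    0 ≤ 9 * (g ^ 3 + x1 ^ 3 + x2 ^ 3) + 27 * (g * o0 ^ 2 + 2 * (r + 1) * (c * o1 ^ 2) +
      3 * (r + 1) * (b * o2 ^ 2) + 3 * (r + 1) * (a * s1 ^ 2) + 2 * (r + 1) * (e * s2 ^ 2)) := by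
  positivity

/-- **The family.** -/
theorem family (K : ℝ) : ∃ δ : ℝ, 0 < δ ∧ ∀ n₀ : ℕ, ∃ n : ℕ, n₀ ≤ n ∧
    ∃ H : Finset (Finset (Fin n)),
      IsFDF3 H ∧ (H.card : ℝ) ≤ (4 / 9 - δ) * (n.choose 3 : ℝ) ∧
        K * ((indep4 H).card : ℝ) ≤ δ * (n.choose 4 : ℝ) ∧
          ∃ η : ℝ, RegularUpTo H η ∧ K * η ≤ δ := by
  obtain ⟨q, hqK⟩ : ∃ q : ℕ, 1000 * |K| ≤ (q : ℝ) := exists_nat_ge _
  have hK0 : 0 ≤ |K| := abs_nonneg K
  have hKle : K ≤ |K| := le_abs_self K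
  set J : ℝ := (q : ℝ) + 1 with hJ
  have hq0 : (0 : ℝ) ≤ (q : ℝ) := Nat.cast_nonneg _
  have hJ1 : 1 ≤ J := by rw [hJ]; linarith
  have hJ0 : 0 < J := by linarith
  have hJK : 1000 * |K| ≤ J := by rw [hJ]; linarith
  have hDge := Dl_ge q
  rw [← hJ] at hDge
  have hD : 0 < Dl q := lt_of_lt_of_le (by positivity) hDge
  have hPn : 1 ≤ totP q := by
    simp only [totP]
    have : 1 ≤ (q + 1) ^ 4 := Nat.one_le_pow _ _ (by omega)
    omega
  have hPJ : (totP q : ℝ) = 7776 * J ^ 4 := by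
    simp only [totP]; push_cast; rw [hJ]
  have hP : (1 : ℝ) ≤ (totP q : ℝ) := by exact_mod_cast hPn
  set P : ℝ := (totP q : ℝ) with hPdef
  have hP0 : 0 < P := by linarith
  have hP3 : (0 : ℝ) < 18 * P ^ 3 := by positivity
  set δ : ℝ := Dl q / (18 * P ^ 3) with hδ
  have hδ0 : 0 < δ := div_pos hD hP3
  have hδD : Dl q = 18 * P ^ 3 * δ := by
    rw [hδ]; field_simp
  have hδ1 : δ ≤ 4 / 9 := by
    rw [hδ, div_le_iff₀ hP3]
    have : Dl q ≤ 4 * P ^ 3 := by
      unfold Dl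
      have h1 := aux_nonneg (szG q : ℝ) (clX1 q : ℝ) (clX2 q : ℝ) (q : ℝ) (szC q : ℝ) (oV0 q : ℝ)
        (oV1 q : ℝ) (oV2 q : ℝ) (szA q : ℝ) (szB q : ℝ) (szE q : ℝ) (oS1 q : ℝ) (oS2 q : ℝ)
        (Nat.cast_nonneg _) (Nat.cast_nonneg _) (Nat.cast_nonneg _) hq0 (Nat.cast_nonneg _)
        (Nat.cast_nonneg _) (Nat.cast_nonneg _) (Nat.cast_nonneg _)
      linarith
    have h3 : (0 : ℝ) < P ^ 3 := by positivity
    linarith
  have hδlow : 1000000000 * J ^ 9 ≤ 18 * P ^ 3 * δ := by rw [← hδD]; exact hDge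
  clear_value δ
  refine ⟨δ, hδ0, ?_⟩
  intro n₀
  obtain ⟨m, hm0, hm12, hmδ⟩ : ∃ m : ℕ, n₀ ≤ m ∧ 12 ≤ m ∧ 4 / 3 / δ ≤ (m : ℝ) := by
    obtain ⟨m, hm⟩ := exists_nat_ge (4 / 3 / δ)
    refine ⟨max n₀ (max 12 m), le_max_left _ _,
      (le_max_left _ _).trans (le_max_right _ _), hm.trans ?_⟩
    exact_mod_cast (le_max_right _ _).trans (le_max_right _ _)
  have hmn : m ≤ m * totP q := Nat.le_mul_of_pos_right m hPn
  have hm12R : (12 : ℝ) ≤ (m : ℝ) := by exact_mod_cast hm12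
  obtain ⟨nn, hnndef⟩ : ∃ nn : ℕ, nn = m * totP q := ⟨_, rfl⟩
  rw [← hnndef] at hmn
  refine ⟨nn, hm0.trans hmn, ?_⟩
  obtain ⟨τ, hτ⟩ := exists_typing (sz q m) nn (hnndef.trans (sum_sz q m).symm)
  have hnnR : (nn : ℝ) = (m : ℝ) * P := by rw [hnndef]; push_cast; ring
  refine ⟨graph τ, graph_isFDF3 τ, ?_, ?_, ?_⟩
  · have h1 := graph_card_sz τ hτ hnndef
    have h2 := choose_three_ge nn
    obtain ⟨n, hn⟩ : ∃ n : ℝ, n = (nn : ℝ) := ⟨_, rfl⟩
    rw [← hn] at h2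
    have hnn : n = (m : ℝ) * P := by rw [hn, hnnR]
    have hnm : (m : ℝ) ≤ n := by
      rw [hn]; exact_mod_cast hmn
    have h3 : (4 / 54 * P ^ 3 - Dl q / 54) * (m : ℝ) ^ 3 = (4 / 9 - 2 * δ) * n ^ 3 / 6 := by
      rw [hδD, hnn]; ring
    have h4 : 4 / 3 ≤ δ * n := by
      have : 4 / 3 ≤ (m : ℝ) * δ := (div_le_iff₀ hδ0).mp hmδ
      nlinarith
    have h5 : (4 / 9 - 2 * δ) * n ^ 3 / 6 ≤ (4 / 9 - δ) * ((n ^ 3 - 3 * n ^ 2) / 6) := by
      have : 0 ≤ n ^ 2 * (δ * n - 4 / 3 + 3 * δ) := by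
        apply mul_nonneg (sq_nonneg _); linarith
      nlinarith
    calc ((graph τ).card : ℝ) ≤ _ := h1
      _ = _ := h3
      _ ≤ _ := h5
      _ ≤ _ := mul_le_mul_of_nonneg_left h2 (by linarith)
  · have h1 : ((indep4 (graph τ)).card : ℝ) ≤ ((m : ℝ) ^ 2 * (numE q : ℝ)) ^ 2 := by
      have := indep4_card_le τ
      rw [excPairs_card_sz τ hτ] at this
      exact_mod_cast this
    have h2 := choose_four_ge nn (hm12.trans hmn)
    have h0 : (0 : ℝ) ≤ ((indep4 (graph τ)).card : ℝ) := Nat.cast_nonneg _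
    have hNE : (numE q : ℝ) ≤ 2000000 * J ^ 6 := by
      have := numE_le q
      rw [hJ]; exact_mod_cast this
    have hNE0 : (0 : ℝ) ≤ (numE q : ℝ) := Nat.cast_nonneg _
    have hm4 : (0 : ℝ) ≤ (m : ℝ) ^ 4 := by positivity
    have hδP : 1000000000 * J ^ 9 * P / 864 ≤ δ * (P ^ 4 / 48) := by
      have := mul_le_mul_of_nonneg_right hδlow hP0.le
      have e : δ * (P ^ 4 / 48) = 18 * P ^ 3 * δ * P / 864 := by ring
      rw [e]
      linarith
    have hKJ : |K| * (2000000 * J ^ 6) ^ 2 ≤ 1000000000 * J ^ 9 * P / 864 := by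
      rw [hPJ]
      have e1 : |K| * (2000000 * J ^ 6) ^ 2 = 4000000000 * J ^ 12 * (1000 * |K|) := by ring
      have e2 : 1000000000 * J ^ 9 * (7776 * J ^ 4) / 864 = 9000000000 * J ^ 12 * J := by ring
      rw [e1, e2]
      have : 0 < J ^ 12 := by positivity
      nlinarith
    calc K * ((indep4 (graph τ)).card : ℝ) ≤ |K| * ((indep4 (graph τ)).card : ℝ) :=
          mul_le_mul_of_nonneg_right hKle h0
      _ ≤ |K| * ((m : ℝ) ^ 2 * (numE q : ℝ)) ^ 2 := mul_le_mul_of_nonneg_left h1 hK0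
      _ = (m : ℝ) ^ 4 * (|K| * (numE q : ℝ) ^ 2) := by ring
      _ ≤ (m : ℝ) ^ 4 * (|K| * (2000000 * J ^ 6) ^ 2) := by
          apply mul_le_mul_of_nonneg_left _ hm4
          apply mul_le_mul_of_nonneg_left _ hK0
          exact pow_le_pow_left₀ hNE0 hNE 2
      _ ≤ (m : ℝ) ^ 4 * (1000000000 * J ^ 9 * P / 864) := mul_le_mul_of_nonneg_left hKJ hm4
      _ ≤ (m : ℝ) ^ 4 * (δ * (P ^ 4 / 48)) := mul_le_mul_of_nonneg_left hδP hm4
      _ = δ * ((nn : ℝ) ^ 4 / 48) := by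
          rw [hnnR]; ring
      _ ≤ _ := mul_le_mul_of_nonneg_left h2 hδ0.le
  · -- regularity
    refine ⟨6000000 * J ^ 4 / P ^ 2, ?_, ?_⟩
    · have hnR : (nn : ℝ) = (m : ℝ) * P := hnnR
      have hn12 : 12 ≤ nn := hm12.trans hmn
      have hn12R : (12 : ℝ) ≤ (nn : ℝ) := by exact_mod_cast hn12
      -- the reference value
      set D0 : ℝ := (degT q .V0 : ℝ) / P ^ 2 with hD0
      have hD0n : D0 * (nn : ℝ) ^ 2 = (m : ℝ) ^ 2 * (degT q .V0 : ℝ) := by
        rw [hD0, hnR]; field_simp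
      have hD00 : 0 ≤ D0 := div_nonneg (Nat.cast_nonneg _) (by positivity)
      have hD01 : D0 ≤ 1 := by
        rw [hD0, div_le_one (by positivity)]
        have := degT_V0_le q
        rw [hPdef]; exact_mod_cast this
      have hC2 : (((nn - 1).choose 2 : ℕ) : ℝ) = ((nn : ℝ) - 1) * ((nn : ℝ) - 2) / 2 := by
        rw [Nat.cast_choose_two, Nat.cast_sub (by omega)]
        push_cast; ring
      have hC2pos : (0 : ℝ) < (((nn - 1).choose 2 : ℕ) : ℝ) := by
        rw [hC2]; nlinarith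
      set η0 : ℝ := 3000000 * J ^ 4 / P ^ 2 with hη0
      have hη00 : 0 ≤ η0 := by positivity
      have hη0n : η0 * (nn : ℝ) ^ 2 = 3000000 * J ^ 4 * (m : ℝ) ^ 2 := by
        rw [hη0, hnR]; field_simp
      have hη01 : η0 ≤ 1 / 10 := by
        rw [hη0, hPJ, div_le_iff₀ (by positivity)]
        have h1 : 1 ≤ J ^ 4 := one_le_pow₀ hJ1
        nlinarith
      have hkey : ∀ v : Fin nn, |(deg (graph τ) v : ℝ) - D0 * (((nn - 1).choose 2 : ℕ) : ℝ)| ≤
          η0 * (((nn - 1).choose 2 : ℕ) : ℝ) := by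
        intro v
        obtain ⟨hu, hl⟩ := deg_bounds τ hτ (by omega) v
        have hg : (degT q .V0 : ℝ) ≤ (degT q (τ v) : ℝ) := by exact_mod_cast degT_ge q (τ v)
        have hle : (degT q (τ v) : ℝ) ≤ (degT q .V0 : ℝ) + 1000000 * J ^ 4 := by
          have := degT_le q (τ v)
          rw [hJ]; exact_mod_cast this
        have hm2 : (0 : ℝ) ≤ (m : ℝ) ^ 2 := by positivity
        have hu2 : 2 * (deg (graph τ) v : ℝ) ≤ D0 * (nn : ℝ) ^ 2 + 1000000 * J ^ 4 * (m : ℝ) ^ 2 := by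
          rw [hD0n]; nlinarith
        have hl2 : D0 * (nn : ℝ) ^ 2 - 6 * (nn : ℝ) ≤ 2 * (deg (graph τ) v : ℝ) := by
          rw [hD0n]; nlinarith
        have hbig : 10 * (nn : ℝ) ≤ 1000000 * J ^ 4 * (m : ℝ) ^ 2 := by
          rw [hnR, hPJ]
          have h1 : 0 < J ^ 4 * (m : ℝ) := by positivity
          nlinarith
        rw [hC2, abs_le]
        constructor
        · nlinarith
        · nlinarith
      have hdens : |(((graph τ).card : ℕ) : ℝ) / (nn.choose 3 : ℝ) - D0| ≤ η0 := by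
        have hsum : ∑ v : Fin nn, deg (graph τ) v = 3 * (graph τ).card := by
          have h1 : ∑ v : Fin nn, deg (graph τ) v = ∑ e ∈ graph τ, (univ.filter fun v => v ∈ e).card := by
            simp only [deg, Finset.card_filter]
            exact Finset.sum_comm
          rw [h1, Finset.sum_congr rfl (g := fun _ => 3)]
          · rw [Finset.sum_const, smul_eq_mul]; ring
          · intro e he
            have := graph_is3Graph τ e he
            simpa using this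
        have hchoose : nn * (nn - 1).choose 2 = nn.choose 3 * 3 := by
          have := Nat.add_one_mul_choose_eq (nn - 1) 2
          have e : nn - 1 + 1 = nn := by omega
          rw [e] at this
          exact this
        have hchooseR : (nn : ℝ) * (((nn - 1).choose 2 : ℕ) : ℝ) = (nn.choose 3 : ℝ) * 3 := by
          exact_mod_cast hchoose
        have hn3 : (0 : ℝ) < (nn.choose 3 : ℝ) := by
          exact_mod_cast Nat.choose_pos (by omega)
        have hsumR : ∑ v : Fin nn, (deg (graph τ) v : ℝ) = 3 * (((graph τ).card : ℕ) : ℝ) := by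
          exact_mod_cast hsum
        have h2 : 3 * ((((graph τ).card : ℕ) : ℝ) - D0 * (nn.choose 3 : ℝ)) =
            ∑ v : Fin nn, ((deg (graph τ) v : ℝ) - D0 * (((nn - 1).choose 2 : ℕ) : ℝ)) := by
          rw [Finset.sum_sub_distrib, hsumR, Finset.sum_const, card_univ, Fintype.card_fin,
            nsmul_eq_mul]
          linear_combination D0 * hchooseR
        have h3 : |∑ v : Fin nn, ((deg (graph τ) v : ℝ) - D0 * (((nn - 1).choose 2 : ℕ) : ℝ))| ≤
            (nn : ℝ) * (η0 * (((nn - 1).choose 2 : ℕ) : ℝ)) := by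
          refine (Finset.abs_sum_le_sum_abs _ _).trans ?_
          refine (Finset.sum_le_sum (fun v _ => hkey v)).trans ?_
          rw [Finset.sum_const, card_univ, Fintype.card_fin, nsmul_eq_mul]
        rw [← h2, abs_mul, abs_of_pos (by norm_num : (0 : ℝ) < 3)] at h3
        have h4 : (((graph τ).card : ℕ) : ℝ) / (nn.choose 3 : ℝ) - D0 =
            ((((graph τ).card : ℕ) : ℝ) - D0 * (nn.choose 3 : ℝ)) / (nn.choose 3 : ℝ) := by
          field_simp
        rw [h4, abs_div, abs_of_pos hn3, div_le_iff₀ hn3]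
        have h5 : (nn : ℝ) * (η0 * (((nn - 1).choose 2 : ℕ) : ℝ)) = 3 * (η0 * (nn.choose 3 : ℝ)) := by
          linear_combination η0 * hchooseR
        linarith
      intro v
      have hv := hkey v
      have hv2 : |(deg (graph τ) v : ℝ) / (((nn - 1).choose 2 : ℕ) : ℝ) - D0| ≤ η0 := by
        have h4 : (deg (graph τ) v : ℝ) / (((nn - 1).choose 2 : ℕ) : ℝ) - D0 =
            ((deg (graph τ) v : ℝ) - D0 * (((nn - 1).choose 2 : ℕ) : ℝ)) /
              (((nn - 1).choose 2 : ℕ) : ℝ) := by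
          field_simp
        rw [h4, abs_div, abs_of_pos hC2pos, div_le_iff₀ hC2pos]
        exact hv
      have hfin : 6000000 * J ^ 4 / P ^ 2 = η0 + η0 := by rw [hη0]; ring
      rw [hfin]
      rw [abs_le] at hv2 hdens ⊢
      constructor <;> linarith [hv2.1, hv2.2, hdens.1, hdens.2]
    · have hJ4 : 0 ≤ 6000000 * J ^ 4 / P ^ 2 := by positivity
      refine (mul_le_mul_of_nonneg_right hKle hJ4).trans ?_
      rw [mul_div_assoc', div_le_iff₀ (by positivity)]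
      -- |K| * (6000000 J^4) ≤ δ P^2
      have h1 : |K| * (6000000 * J ^ 4) * (18 * P) ≤ δ * P ^ 2 * (18 * P) := by
        have e1 : δ * P ^ 2 * (18 * P) = 18 * P ^ 3 * δ := by ring
        rw [e1]
        refine le_trans ?_ hδlow
        rw [hPJ]
        have e2 : |K| * (6000000 * J ^ 4) * (18 * (7776 * J ^ 4)) =
            839808000 * J ^ 8 * (1000 * |K|) := by ring
        have e3 : 1000000000 * J ^ 9 = 1000000000 * J ^ 8 * J := by ring
        rw [e2, e3]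
        have : 0 < J ^ 8 := by positivity
        nlinarith
      exact le_of_mul_le_mul_right h1 (by positivity)

/-- **Barrier.** -/
theorem barrier (N : ℕ) (w : Finset (Finset (Fin N)) → ℝ) (hw : AsympNonneg w) :
    ¬ ∀ F : Finset (Finset (Fin N)), IsFDF3 F → IsTuran34 F →
        4 / 9 + w F ≤ (F.card : ℝ) / (N.choose 3 : ℝ) :=
  barrier_of_family family N w hw

end Pool.Agent.H4
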